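import Pool.Agent.H124R2.Vis.Exit
import Pool.Agent.H247R2.Warren

/-!
# The upper bound for the number of visibility graphs

The visibility graph is determined by the side on which the polygon lies and by the signs of the
orientations and of the scalar products of all triples of vertices.
-/

set_option autoImplicit false

namespace Pool.Agent.Y402.VG

open Set Vis124 MvPolynomial

lemma sign_pos_iff {s x y : ℝ} (h : SignType.sign x = SignType.sign y) : 0 < s * x ↔ 0 < s * y := by
  rw [← sign_eq_one_iff, ← sign_eq_one_iff, sign_mul, sign_mul, h]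

lemma sign_neg_iff {s x y : ℝ} (h : SignType.sign x = SignType.sign y) : s * x < 0 ↔ s * y < 0 := by
  rw [← sign_eq_neg_one_iff, ← sign_eq_neg_one_iff, sign_mul, sign_mul, h]

lemma sign_nonpos_iff {s x y : ℝ} (h : SignType.sign x = SignType.sign y) :
    s * x ≤ 0 ↔ s * y ≤ 0 := by
  rw [← not_lt, ← not_lt, sign_pos_iff h]

section

variable {n : ℕ} {v v' : Fin n → ℝ × ℝ} {P P' : Set (ℝ × ℝ)}

/-- the same signs of orientations and scalar products -/
def SameSigns (v v' : Fin n → ℝ × ℝ) : Prop :=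
  ∀ i j k, SignType.sign (ori (v i) (v j) (v k)) = SignType.sign (ori (v' i) (v' j) (v' k)) ∧
    SignType.sign (dotp (v i) (v j) (v k)) = SignType.sign (dotp (v' i) (v' j) (v' k))

lemma vexit_iff (hs : SameSigns v v') (σ : ℝ) (i j k : Fin n) :
    VExit σ v i j k ↔ VExit σ v' i j k := by
  have h1 : ori (v i) (v j) (v k) = 0 ↔ ori (v' i) (v' j) (v' k) = 0 := by
    rw [← sign_eq_zero_iff, (hs i j k).1, sign_eq_zero_iff]
  have h2 : dotp (v k) (v i) (v j) ≤ 0 ↔ dotp (v' k) (v' i) (v' j) ≤ 0 := by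
    have := sign_nonpos_iff (s := 1) (hs k i j).2
    rwa [one_mul, one_mul] at this
  have h3 : v j - v k ∈ Sec (-σ) (wd v k) (ud v k) ↔ v' j - v' k ∈ Sec (-σ) (wd v' k) (ud v' k) := by
    have a1 : ∀ w : Fin n → ℝ × ℝ, cr (wd w k) (ud w k) = ori (w k) (w (sc k)) (w (pd k)) :=
      fun _ => rfl
    have a2 : ∀ w : Fin n → ℝ × ℝ, cr (wd w k) (w j - w k) = ori (w k) (w (sc k)) (w j) :=
      fun _ => rfl
    have a3 : ∀ w : Fin n → ℝ × ℝ, cr (w j - w k) (ud w k) = ori (w k) (w j) (w (pd k)) :=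
      fun _ => rfl
    change (_ ∨ _) ↔ (_ ∨ _)
    rw [a1, a2, a3, a1, a2, a3, sign_pos_iff (hs k (sc k) (pd k)).1,
      sign_pos_iff (hs k (sc k) j).1, sign_pos_iff (hs k j (pd k)).1,
      sign_nonpos_iff (hs k (sc k) (pd k)).1]
  unfold VExit
  rw [h1, h2, h3]

lemma eexit_iff (hs : SameSigns v v') (σ : ℝ) (i j l : Fin n) :
    EExit σ v i j l ↔ EExit σ v' i j l := by
  unfold EExit
  rw [sign_pos_iff (hs l (sc l) i).1, sign_neg_iff (hs l (sc l) j).1]
  have h3 : ori (v i) (v j) (v l) * ori (v i) (v j) (v (sc l)) < 0 ↔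
      ori (v' i) (v' j) (v' l) * ori (v' i) (v' j) (v' (sc l)) < 0 := by
    rw [← sign_eq_neg_one_iff, ← sign_eq_neg_one_iff, sign_mul, sign_mul, (hs i j l).1,
      (hs i j (sc l)).1]
  rw [h3]

/-- the side of the polygon -/
def IsSide (v : Fin n → ℝ × ℝ) (P : Set (ℝ × ℝ)) (σ : ℝ) : Prop :=
  (σ = 1 ∨ σ = -1) ∧ (∀ k, Ev v (interior P) σ k) ∧ (∀ k, Ev v Pᶜ (-σ) k)

/-- the visibility graph is determined by the signs -/
theorem visGraph_eq (h : IsSimplePolygon v P) (h' : IsSimplePolygon v' P') {σ : ℝ}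
    (hσ : IsSide v P σ) (hσ' : IsSide v' P' σ) (hs : SameSigns v v') :
    visGraph v P = visGraph v' P' := by
  ext i j
  have key : ∀ (w : Fin n → ℝ × ℝ) (Q : Set (ℝ × ℝ)), IsSimplePolygon w Q → IsSide w Q σ →
      ((visGraph w Q).Adj i j ↔ i ≠ j ∧ ¬ ((∃ k, VExit σ w i j k) ∨ (∃ l, EExit σ w i j l))) := by
    intro w Q hw hside
    constructor
    · rintro ⟨h1, h2⟩
      exact ⟨h1, fun h3 => not_visible_of_exit hw hside.1 hside.2.2 h1 h3 h2⟩
    · rintro ⟨h1, h2⟩
      refine ⟨h1, ?_⟩
      by_contra h3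
      exact h2 (exit_of_not_visible hw hside.1 hside.2.1 hside.2.2 h1 h3)
  rw [key v P h hσ, key v' P' h' hσ']
  simp only [vexit_iff hs, eexit_iff hs]

/-- the point of `ℝ ^ (2 n)` given by a polygon -/
def coords (v : Fin n → ℝ × ℝ) (a : Fin n × Bool) : ℝ := if a.2 then (v a.1).2 else (v a.1).1

/-- the polynomials -/
noncomputable def poly (n : ℕ) (a : Bool × Fin n × Fin n × Fin n) :
    MvPolynomial (Fin n × Bool) ℝ :=
  if a.1 then
    (X (a.2.2.1, false) - X (a.2.1, false)) * (X (a.2.2.2, false) - X (a.2.1, false)) +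
    (X (a.2.2.1, true) - X (a.2.1, true)) * (X (a.2.2.2, true) - X (a.2.1, true))
  else
    (X (a.2.2.1, false) - X (a.2.1, false)) * (X (a.2.2.2, true) - X (a.2.1, true)) -
    (X (a.2.2.1, true) - X (a.2.1, true)) * (X (a.2.2.2, false) - X (a.2.1, false))

lemma eval_poly_false (v : Fin n → ℝ × ℝ) (i j k : Fin n) :
    eval (coords v) (poly n (false, i, j, k)) = ori (v i) (v j) (v k) := by
  simp [poly, coords, ori, cr]

lemma eval_poly_true (v : Fin n → ℝ × ℝ) (i j k : Fin n) :
    eval (coords v) (poly n (true, i, j, k)) = dotp (v i) (v j) (v k) := by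
  simp [poly, coords, dotp]

lemma deg_sub_X (a b : Fin n × Bool) :
    (X a - X b : MvPolynomial (Fin n × Bool) ℝ).totalDegree ≤ 1 := by
  refine (totalDegree_sub _ _).trans ?_
  rw [totalDegree_X, totalDegree_X]
  simp

lemma deg_mul (a b c d : Fin n × Bool) :
    ((X a - X b) * (X c - X d) : MvPolynomial (Fin n × Bool) ℝ).totalDegree ≤ 2 := by
  refine (totalDegree_mul _ _).trans ?_
  have h1 := deg_sub_X a b
  have h2 := deg_sub_X c d
  omega

lemma deg_poly (n : ℕ) (a : Bool × Fin n × Fin n × Fin n) : (poly n a).totalDegree ≤ 2 := by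
  unfold poly
  split_ifs
  · exact (totalDegree_add _ _).trans (max_le (deg_mul _ _ _ _) (deg_mul _ _ _ _))
  · exact (totalDegree_sub _ _).trans (max_le (deg_mul _ _ _ _) (deg_mul _ _ _ _))

/-- the sign vector -/
noncomputable def sv (v : Fin n → ℝ × ℝ) (a : Bool × Fin n × Fin n × Fin n) : SignType :=
  SignType.sign (eval (coords v) (poly n a))

lemma sameSigns_of_sv (h : sv v = sv v') : SameSigns v v' := by
  intro i j k
  constructor
  · have := congrFun h (false, i, j, k)
    simpa only [sv, eval_poly_false] using this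
  · have := congrFun h (true, i, j, k)
    simpa only [sv, eval_poly_true] using this

end

/-- **Upper bound.** -/
theorem N_le (n : ℕ) : N n ≤ 2 * (16 * n ^ 3 + 1) ^ (2 * n) := by
  classical
  -- choose a polygon for every class
  have hex : ∀ q : visClasses n, ∃ (v : Fin n → ℝ × ℝ) (P : Set (ℝ × ℝ)) (b : Bool),
      IsSimplePolygon v P ∧ IsSide v P (if b then 1 else -1) ∧
        (q : Quotient (isoSetoid n)) = Quotient.mk (isoSetoid n) (visGraph v P) := by
    rintro ⟨q, v, P, h, rfl⟩
    obtain ⟨σ, hσ, h1, h2⟩ := oriented h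
    rcases hσ with rfl | rfl
    · exact ⟨v, P, true, h, ⟨Or.inl rfl, by simpa using h1, by simpa using h2⟩, rfl⟩
    · refine ⟨v, P, false, h, ?_, rfl⟩
      simp only [Bool.false_eq_true, if_false]
      exact ⟨Or.inr rfl, h1, h2⟩
  choose V Q B hV hB hq using hex
  let S : Finset (Bool × Fin n × Fin n × Fin n → SignType) :=
    Finset.univ.filter fun s => ∃ v : Fin n → ℝ × ℝ, s = sv v
  let Ψ : visClasses n → Bool × (Bool × Fin n × Fin n × Fin n → SignType) :=
    fun q => (B q, sv (V q))
  have hΨ : Function.Injective Ψ := by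
    intro q q' h
    have h1 : B q = B q' := congrArg Prod.fst h
    have h2 : sv (V q) = sv (V q') := congrArg Prod.snd h
    apply Subtype.ext
    rw [hq q, hq q']
    congr 1
    apply visGraph_eq (hV q) (hV q') (hB q) _ (sameSigns_of_sv h2)
    rw [h1]
    exact hB q'
  have hcardS : S.card ≤ (16 * n ^ 3 + 1) ^ (2 * n) := by
    have h1 := Pool.Agent.H247R2.Warren.sign_count (poly n) 2 (deg_poly n) S (by
      intro s hs
      simp only [S, Finset.mem_filter, Finset.mem_univ, true_and] at hs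
      obtain ⟨v, rfl⟩ := hs
      exact ⟨coords v, fun j => rfl⟩)
    refine h1.trans (le_of_eq ?_)
    have e1 : Fintype.card (Bool × Fin n × Fin n × Fin n) = 2 * n ^ 3 := by
      simp [Fintype.card_prod]
      ring
    have e2 : Fintype.card (Fin n × Bool) = 2 * n := by
      simp [Fintype.card_prod]
      ring
    rw [e1, e2]
    congr 1
    ring
  have hfin : Finite (visClasses n) := Finite.of_injective Ψ hΨ
  have h3 : Nat.card (visClasses n) ≤ ((Finset.univ : Finset Bool) ×ˢ S).card := by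
    rw [← Nat.card_eq_finsetCard]
    apply Nat.card_le_card_of_injective
      (fun q => (⟨Ψ q, by
        rw [Finset.mem_product]
        refine ⟨Finset.mem_univ _, ?_⟩
        simp only [S, Finset.mem_filter, Finset.mem_univ, true_and]
        exact ⟨V q, rfl⟩⟩ : ((Finset.univ : Finset Bool) ×ˢ S : Finset _)))
    intro q q' h
    exact hΨ (congrArg Subtype.val h)
  have h4 : N n = Nat.card (visClasses n) := rfl
  rw [h4]
  refine h3.trans ?_
  rw [Finset.card_product]
  have : (Finset.univ : Finset Bool).card = 2 := by simp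
  rw [this]
  exact Nat.mul_le_mul_left 2 hcardS

end Pool.Agent.Y402.VG
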