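import Pool.Agent.Y402.VG.Iso
import Pool.Agent.Y402.VG.Upper

/-!
# The lower bound for the number of visibility graphs, also in general position
-/

set_option autoImplicit false

namespace Pool.Agent.Y402.VG

open Set Vis124 Pool.Agent.TH695.BC

lemma ori_of_collinear {A B C : ℝ × ℝ} (h : Collinear ℝ {A, B, C}) : ori A B C = 0 := by
  rw [collinear_iff_of_mem (p₀ := A) (by simp)] at h
  obtain ⟨w, hw⟩ := h
  obtain ⟨s, hs⟩ := hw B (by simp)
  obtain ⟨t, ht⟩ := hw C (by simp)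
  rw [hs, ht]
  simp [ori, cr]
  ring

lemma int_ne {a b e f g : ℤ} (ha : a ≠ 0) (hb : b ≠ 0) (hab : b - a ≠ 0)
    (he : e = 0 ∨ e = 1) (hf : f = 0 ∨ f = 1) (hg : g = 0 ∨ g = 1) :
    2 * (a * b * (b - a)) + (a * (g - e) - (f - e) * b) ≠ 0 := by
  intro h
  have k0 : a * b * (b - a) ≠ 0 := mul_ne_zero (mul_ne_zero ha hb) hab
  have odd : ∀ c : ℤ, 2 * c + 1 ≠ 0 ∧ 2 * c - 1 ≠ 0 := fun c => by omega
  rcases he with rfl | rfl <;> rcases hf with rfl | rfl <;> rcases hg with rfl | rfl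
  · apply k0; linarith
  · exact mul_ne_zero ha (odd (b * (b - a))).1 (by linarith)
  · exact mul_ne_zero hb (odd (a * (b - a))).2 (by linarith)
  · exact mul_ne_zero hab (odd (a * b)).2 (by linarith)
  · exact mul_ne_zero hab (odd (a * b)).1 (by linarith)
  · exact mul_ne_zero hb (odd (a * (b - a))).1 (by linarith)
  · exact mul_ne_zero ha (odd (b * (b - a))).2 (by linarith)
  · apply k0; linarith

section

variable {n L m : ℕ} {δ : ℝ} {r : ℕ → ℕ}

/-- abscissa of a vertex -/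
def xx (L : ℕ) {n : ℕ} (v : Fin n) : ℕ := if (v : ℕ) ≤ L then v else n - 1 - v

/-- upper or lower chain -/
def ee (L : ℕ) {n : ℕ} (v : Fin n) : ℤ := if (v : ℕ) ≤ L then 0 else 1

/-- height for `δ = 0` -/
noncomputable def bb (L m : ℕ) (r : ℕ → ℕ) {n : ℕ} (v : Fin n) : ℝ :=
  if (v : ℕ) ≤ L then (if n = 2 * L + 1 ∧ (v : ℕ) = L then 1 / 2 else 0)
  else 1 + dep m r (n - 1 - v)

lemma Good.bv_eq (g : Good n L m δ) (v : Fin n) :
    bv n L m δ r v = (((xx L v : ℕ) : ℝ),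
      bb L m r v + δ * (((xx L v : ℕ) : ℝ) ^ 2 + (ee L v : ℝ) / 2)) := by
  by_cases h : (v : ℕ) ≤ L
  · obtain ⟨x, hx, rfl⟩ := g.low_cases v h
    rw [g.bv_lo hx]
    unfold xx ee bb bG
    rw [if_pos h, if_pos h, if_pos h, g.lo_val hx]
    ext
    · rfl
    · simp only
      split_ifs <;> push_cast <;> ring
  · obtain ⟨x, hx, rfl⟩ := g.up_cases v h
    rw [g.bv_up hx]
    unfold xx ee bb
    rw [if_neg h, if_neg h, if_neg h]
    have h1 : n - 1 - ((g.up x : Fin n) : ℕ) = x := by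
      have := g.top_lt hx
      have := g.npos
      change n - 1 - (n - 1 - x) = x
      omega
    rw [h1, bH_of (g.not_tip hx)]
    ext
    · rfl
    · simp only
      push_cast
      ring

lemma Good.xx_eq (g : Good n L m δ) {v w : Fin n} (hvw : v ≠ w) (h : xx L v = xx L w) :
    (bv n L m δ r v).1 = (bv n L m δ r w).1 ∧ (bv n L m δ r v).2 ≠ (bv n L m δ r w).2 := by
  refine ⟨by rw [g.bv_eq, g.bv_eq, h], ?_⟩
  intro h2
  apply hvw
  apply (g.heights (r := r)).inj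
  apply Prod.ext
  · change (bv n L m δ r v).1 = (bv n L m δ r w).1
    rw [g.bv_eq, g.bv_eq, h]
  · exact h2

lemma Good.three (g : Good n L m δ) {u v w : Fin n} (h1 : u ≠ v) (h2 : v ≠ w) (h3 : u ≠ w)
    (h : xx L u = xx L v) : xx L u ≠ xx L w := by
  intro h'
  apply h1
  apply Fin.ext
  have hu := u.2
  have hv := v.2
  have hw := w.2
  have e2 : (v : ℕ) ≠ w := fun hh => h2 (Fin.ext hh)
  have e3 : (u : ℕ) ≠ w := fun hh => h3 (Fin.ext hh)
  have := g.hL
  have hn := g.hn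
  unfold xx at h h'
  split_ifs at h h' <;> omega

/-- for three given vertices at most one value of `δ` makes them collinear -/
lemma bad_unique {δ' : ℝ} (g : Good n L m δ) (g' : Good n L m δ') {i j k : Fin n} (hij : i ≠ j)
    (hjk : j ≠ k) (hik : i ≠ k)
    (h : Collinear ℝ {bv n L m δ r i, bv n L m δ r j, bv n L m δ r k})
    (h' : Collinear ℝ {bv n L m δ' r i, bv n L m δ' r j, bv n L m δ' r k}) : δ = δ' := by
  by_contra hne
  have h1 := ori_of_collinear h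
  have h2 := ori_of_collinear h'
  by_cases c1 : xx L i = xx L j
  · have c2 := g.three hij hjk hik c1
    obtain ⟨e1, e2⟩ := g.xx_eq (r := r) hij c1
    have e3 : (bv n L m δ r k).1 ≠ (bv n L m δ r i).1 := by
      rw [g.bv_eq, g.bv_eq]
      simp only
      exact_mod_cast c2.symm
    simp only [ori, cr, Prod.fst_sub, Prod.snd_sub] at h1
    rw [← e1, sub_self, zero_mul, zero_sub, neg_eq_zero] at h1
    rcases mul_eq_zero.mp h1 with h3 | h3
    · exact e2 (sub_eq_zero.mp h3).symm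
    · exact e3 (sub_eq_zero.mp h3)
  by_cases c2 : xx L i = xx L k
  · have c3 := g.three hik hjk.symm hij c2
    obtain ⟨e1, e2⟩ := g.xx_eq (r := r) hik c2
    have e3 : (bv n L m δ r j).1 ≠ (bv n L m δ r i).1 := by
      rw [g.bv_eq, g.bv_eq]
      simp only
      exact_mod_cast c3.symm
    simp only [ori, cr, Prod.fst_sub, Prod.snd_sub] at h1
    rw [← e1, sub_self, mul_zero, sub_zero] at h1
    rcases mul_eq_zero.mp h1 with h3 | h3
    · exact e3 (sub_eq_zero.mp h3)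
    · exact e2 (sub_eq_zero.mp h3).symm
  by_cases c3 : xx L j = xx L k
  · have c4 := g.three hjk hik.symm hij.symm c3
    obtain ⟨e1, e2⟩ := g.xx_eq (r := r) hjk c3
    have e3 : (bv n L m δ r j).1 ≠ (bv n L m δ r i).1 := by
      rw [g.bv_eq, g.bv_eq]
      simp only
      exact_mod_cast c4
    simp only [ori, cr, Prod.fst_sub, Prod.snd_sub] at h1
    rw [← e1] at h1
    have h3 : ((bv n L m δ r j).1 - (bv n L m δ r i).1) *
        ((bv n L m δ r k).2 - (bv n L m δ r j).2) = 0 := by linarith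
    rcases mul_eq_zero.mp h3 with h4 | h4
    · exact e3 (sub_eq_zero.mp h4)
    · exact e2 (sub_eq_zero.mp h4).symm
  -- three different abscissae
  have hi : ((xx L i : ℕ) : ℤ) ≠ xx L j := by exact_mod_cast c1
  have hk : ((xx L i : ℕ) : ℤ) ≠ xx L k := by exact_mod_cast c2
  have hj : ((xx L j : ℕ) : ℤ) ≠ xx L k := by exact_mod_cast c3
  have hee : ∀ v : Fin n, ee L v = 0 ∨ ee L v = 1 := by
    intro v; unfold ee; split_ifs <;> simp
  have key := int_ne (a := ((xx L j : ℕ) : ℤ) - xx L i) (b := ((xx L k : ℕ) : ℤ) - xx L i)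
    (by intro h0; apply hi; linarith) (by intro h0; apply hk; linarith)
    (by intro h0; apply hj; linarith) (hee i) (hee j) (hee k)
  have key' : (2 * ((((xx L j : ℕ) : ℝ) - (xx L i : ℕ)) * (((xx L k : ℕ) : ℝ) - (xx L i : ℕ)) *
      ((((xx L k : ℕ) : ℝ) - (xx L i : ℕ)) - (((xx L j : ℕ) : ℝ) - (xx L i : ℕ)))) +
      ((((xx L j : ℕ) : ℝ) - (xx L i : ℕ)) * ((ee L k : ℝ) - ee L i) -
      ((ee L j : ℝ) - ee L i) * (((xx L k : ℕ) : ℝ) - (xx L i : ℕ)))) ≠ 0 := by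
    exact_mod_cast key
  simp only [ori, cr, Prod.fst_sub, Prod.snd_sub, g.bv_eq] at h1
  simp only [ori, cr, Prod.fst_sub, Prod.snd_sub, g'.bv_eq] at h2
  apply key'
  have h3 : (δ - δ') * (2 * ((((xx L j : ℕ) : ℝ) - (xx L i : ℕ)) *
      (((xx L k : ℕ) : ℝ) - (xx L i : ℕ)) *
      ((((xx L k : ℕ) : ℝ) - (xx L i : ℕ)) - (((xx L j : ℕ) : ℝ) - (xx L i : ℕ)))) +
      ((((xx L j : ℕ) : ℝ) - (xx L i : ℕ)) * ((ee L k : ℝ) - ee L i) -
      ((ee L j : ℝ) - ee L i) * (((xx L k : ℕ) : ℝ) - (xx L i : ℕ)))) = 0 := by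
    linear_combination 2 * h1 - 2 * h2
  rcases mul_eq_zero.mp h3 with h4 | h4
  · exact absurd (sub_eq_zero.mp h4) hne
  · exact h4

end

/-- extension of a finite family of depths -/
def ext {m : ℕ} (f : Fin m → Fin (m + 1)) (i : ℕ) : ℕ := if h : i < m then (f ⟨i, h⟩ : ℕ) else 0

lemma ext_le {m : ℕ} (f : Fin m → Fin (m + 1)) (i : ℕ) : ext f i ≤ m := by
  unfold ext
  split_ifs with h
  · have := (f ⟨i, h⟩).2; omega
  · omega

/-- a good value of `δ` for which all polygons are in general position -/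
lemma exists_delta {n L m : ℕ} (hn : n = 2 * L + 2 ∨ n = 2 * L + 1) (hL : 3 * m + 8 ≤ L) :
    ∃ δ : ℝ, Good n L m δ ∧
      ∀ f : Fin m → Fin (m + 1), GeneralPosition (bv n L m δ (ext f)) := by
  set ε : ℝ := 1 / (8 * ((L : ℝ) + 1) ^ 4) with hε
  have hεpos : 0 < ε := by positivity
  have hgood : ∀ δ ∈ Ioo 0 ε, Good n L m δ := by
    rintro δ ⟨h1, h2⟩
    refine ⟨hn, hL, h1, ?_⟩
    rw [hε, lt_div_iff₀ (by positivity)] at h2
    exact h2.le
  let Bad : (Fin m → Fin (m + 1)) × Fin n × Fin n × Fin n → Set ℝ := fun a =>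
    {δ | δ ∈ Ioo 0 ε ∧ a.2.1 ≠ a.2.2.1 ∧ a.2.2.1 ≠ a.2.2.2 ∧ a.2.1 ≠ a.2.2.2 ∧
      Collinear ℝ {bv n L m δ (ext a.1) a.2.1, bv n L m δ (ext a.1) a.2.2.1,
        bv n L m δ (ext a.1) a.2.2.2}}
  have hBad : ∀ a, (Bad a).Finite := by
    intro a
    apply Set.Subsingleton.finite
    rintro δ ⟨h1, h2, h3, h4, h5⟩ δ' ⟨h1', -, -, -, h5'⟩
    exact bad_unique (hgood δ h1) (hgood δ' h1') h2 h3 h4 h5 h5'
  have hU : (⋃ a, Bad a).Finite := Set.finite_iUnion hBad
  have hinf : (Ioo (0 : ℝ) ε).Infinite := Ioo_infinite hεpos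
  obtain ⟨δ, hδ, hδ'⟩ := (hinf.diff hU).nonempty
  refine ⟨δ, hgood δ hδ, ?_⟩
  intro f i j k hij hjk hik hc
  apply hδ'
  rw [Set.mem_iUnion]
  exact ⟨(f, i, j, k), hδ, hij, hjk, hik, hc⟩

/-- **Lower bound.** -/
theorem le_NGP {n L m : ℕ} (hn : n = 2 * L + 2 ∨ n = 2 * L + 1) (hL : 3 * m + 8 ≤ L) (hm : 1 ≤ m) :
    (m + 1) ^ m ≤ NGP n := by
  obtain ⟨δ, g, hgp⟩ := exists_delta hn hL
  let F : (Fin m → Fin (m + 1)) → Quotient (isoSetoid n) :=
    fun f => Quotient.mk (isoSetoid n) (Gr n L m δ (ext f))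
  have hF : Function.Injective F := by
    intro f f' h
    have h1 : Nonempty (Gr n L m δ (ext f) ≃g Gr n L m δ (ext f')) := Quotient.exact h
    obtain ⟨φ⟩ := h1
    have h2 := g.recover (fun i _ => ext_le f i) (fun i _ => ext_le f' i) hm φ
    funext i
    have h3 := h2 i i.2
    unfold ext at h3
    rw [dif_pos i.2, dif_pos i.2] at h3
    exact Fin.ext h3
  have hsub : Set.range F ⊆ visClassesGP n := by
    rintro _ ⟨f, rfl⟩
    exact ⟨bv n L m δ (ext f), bP n L m δ (ext f), g.simple, hgp f, rfl⟩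
  have hcard : (Set.range F).ncard = (m + 1) ^ m := by
    rw [← Set.image_univ, Set.ncard_image_of_injective _ hF, Set.ncard_univ,
      Nat.card_eq_fintype_card]
    simp
  rw [← hcard]
  exact Set.ncard_le_ncard hsub (Set.toFinite _)

theorem NGP_le (n : ℕ) : NGP n ≤ N n := by
  apply Set.ncard_le_ncard _ (Set.toFinite _)
  rintro q ⟨v, P, h1, -, h3⟩
  exact ⟨v, P, h1, h3⟩

end Pool.Agent.Y402.VG
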