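import Pool.Agent.Y402.VG.Build

/-!
# Visibility in the toothed polygon
-/

set_option autoImplicit false

namespace Pool.Agent.Y402.VG

open Set Vis124 Pool.Agent.TH695.BC

section

variable {n L m : ℕ} {δ : ℝ} {r : ℕ → ℕ}

/-- criterion for visibility in the toothed polygon -/
lemma Good.vis (g : Good n L m δ) {a b : ℕ} (ha : a ≤ L) (hb : b ≤ L) (hab : a ≠ b) (ya yb : ℝ)
    (hya : bG n L δ a ≤ ya ∧ ya ≤ bH n L m δ r a) (hyb : bG n L δ b ≤ yb ∧ yb ≤ bH n L m δ r b)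
    (h : ∀ (k : ℕ) (t : ℝ), min a b < k → k < max a b → 0 < t → t < 1 →
      (k : ℝ) = (1 - t) * a + t * b → (1 - t) * ya + t * yb ≤ bH n L m δ r k) :
    segment ℝ ((a : ℝ), ya) ((b : ℝ), yb) ⊆ bP n L m δ r := by
  have hne' : (b : ℝ) - a ≠ 0 := by
    intro h0
    apply hab
    have : (a : ℝ) = b := by linarith
    exact_mod_cast this
  apply vis_of a b hab ha hb
  intro k t h1 h2 ht0 ht1 hk
  refine ⟨lower_ok g ha hb hab ya yb hya.1 hyb.1 k t h1 h2 ht0 ht1 hk, ?_⟩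
  by_cases hka : k = a
  · have : t = 0 := by
      have h3 : t * ((b : ℝ) - a) = 0 := by
        rw [hka] at hk
        linarith
      rcases mul_eq_zero.mp h3 with h4 | h4
      · exact h4
      · exact absurd h4 hne'
    rw [this, hka]
    linarith [hya.2]
  by_cases hkb : k = b
  · have : t = 1 := by
      have h3 : (1 - t) * ((b : ℝ) - a) = 0 := by
        rw [hkb] at hk
        linarith
      rcases mul_eq_zero.mp h3 with h4 | h4
      · linarith
      · exact absurd h4 hne'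
    rw [this, hkb]
    linarith [hyb.2]
  apply h k t _ _ _ _ hk
  · rcases Nat.le_total a b with h3 | h3
    · rw [min_eq_left h3] at h1 ⊢; omega
    · rw [min_eq_right h3] at h1 ⊢; omega
  · rcases Nat.le_total a b with h3 | h3
    · rw [max_eq_right h3] at h2 ⊢; omega
    · rw [max_eq_left h3] at h2 ⊢; omega
  · rcases eq_or_lt_of_le ht0 with h3 | h3
    · exfalso
      apply hka
      rw [← h3] at hk
      have : (k : ℝ) = a := by linarith
      exact_mod_cast this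
    · exact h3
  · rcases eq_or_lt_of_le ht1 with h3 | h3
    · exfalso
      apply hkb
      rw [h3] at hk
      have : (k : ℝ) = b := by linarith
      exact_mod_cast this
    · exact h3

lemma between_lt {a b k : ℕ} (ha : a ≤ L) (hb : b ≤ L) (h2 : k < max a b) : k < L := by
  rcases Nat.le_total a b with h3 | h3
  · rw [max_eq_right h3] at h2; omega
  · rw [max_eq_left h3] at h2; omega

/-- two vertices of the lower chain see each other -/
lemma Good.low_low (g : Good n L m δ) {a b : ℕ} (ha : a ≤ L) (hb : b ≤ L) (hab : a ≠ b) :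
    segment ℝ ((a : ℝ), bG n L δ a) ((b : ℝ), bG n L δ b) ⊆ bP n L m δ r := by
  apply g.vis ha hb hab
  · exact ⟨le_rfl, g.bG_le_bH ha⟩
  · exact ⟨le_rfl, g.bG_le_bH hb⟩
  · intro k t h1 h2 ht0 ht1 hk
    have hkL := between_lt ha hb h2
    have e1 := g.bG_le ha
    have e2 := g.bG_le hb
    have e3 := g.one_le_bH (r := r) (x := k) (by omega)
    nlinarith

/-- a vertex of the lower chain sees every vertex of the upper chain that is not a tooth -/
lemma Good.low_flat (g : Good n L m δ) {a b : ℕ} (ha : a ≤ L) (hb : b ≤ top n L) (hab : a ≠ b)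
    (hf : ¬ IsTooth m b) :
    segment ℝ ((a : ℝ), bG n L δ a) ((b : ℝ), bH n L m δ r b) ⊆ bP n L m δ r := by
  have hbL : b ≤ L := by rcases g.top_cases with h | h <;> omega
  apply g.vis ha hbL hab
  · exact ⟨le_rfl, g.bG_le_bH ha⟩
  · exact ⟨g.bG_le_bH hbL, le_rfl⟩
  · intro k t h1 h2 ht0 ht1 hk
    have hkL := between_lt ha hbL h2
    have e1 := g.bG_le ha
    have e3 := g.one_le_bH (r := r) (x := k) (by omega)
    have e4 := bH_of (δ := δ) (r := r) (m := m) (g.not_tip hb)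
    rw [dep_zero hf] at e4
    have hL1 := g.L1
    have hbR : (b : ℝ) ≤ L := by exact_mod_cast hbL
    have hb0 : (0 : ℝ) ≤ b := Nat.cast_nonneg b
    have haR : (a : ℝ) ≤ L := by exact_mod_cast ha
    have ha0 : (0 : ℝ) ≤ a := Nat.cast_nonneg a
    -- `1 - t` is at least `1 / L`
    have e5 : 1 ≤ (1 - t) * L := by
      rcases Nat.lt_or_gt_of_ne hab with h3 | h3
      · rw [max_eq_right h3.le] at h2
        have h4 : (k : ℝ) + 1 ≤ b := by exact_mod_cast h2
        nlinarith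
      · rw [min_eq_right h3.le] at h1
        have h4 : (b : ℝ) + 1 ≤ k := by exact_mod_cast h1
        nlinarith
    have e6 : δ * ((b : ℝ) ^ 2 + 1 / 2) * L ≤ 1 / 8 := by
      have h3 : ((b : ℝ) ^ 2 + 1 / 2) * L ≤ ((L : ℝ) + 1) ^ 4 := by
        have h4 : ((b : ℝ) ^ 2 + 1 / 2) ≤ ((L : ℝ) + 1) ^ 2 := by nlinarith
        have h5 : (L : ℝ) ≤ ((L : ℝ) + 1) ^ 2 := by nlinarith
        calc ((b : ℝ) ^ 2 + 1 / 2) * L ≤ ((L : ℝ) + 1) ^ 2 * ((L : ℝ) + 1) ^ 2 :=
              mul_le_mul h4 h5 (by linarith) (by positivity)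
          _ = ((L : ℝ) + 1) ^ 4 := by ring
      have h6 := g.b4
      calc δ * ((b : ℝ) ^ 2 + 1 / 2) * L = δ * (((b : ℝ) ^ 2 + 1 / 2) * L) := by ring
        _ ≤ δ * ((L : ℝ) + 1) ^ 4 := mul_le_mul_of_nonneg_left h3 g.pos.le
        _ ≤ 1 / 8 := h6
    have e7 : 0 < (L : ℝ) := by linarith
    have e8 : 1 / (L : ℝ) ≤ 1 - t := by
      rw [div_le_iff₀ e7]; exact e5
    have e9 : δ * ((b : ℝ) ^ 2 + 1 / 2) ≤ 1 / 8 * (1 / L) := by
      rw [mul_one_div, le_div_iff₀ e7]; exact e6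
    have e10 : 0 ≤ δ * ((b : ℝ) ^ 2 + 1 / 2) := mul_nonneg g.pos.le (by positivity)
    rw [e4]
    set D := δ * ((b : ℝ) ^ 2 + 1 / 2) with hD
    -- `(1 - t) ya + t (1 + D) ≤ 1`
    have e11 : (1 - t) * bG n L δ a ≤ (1 - t) * (5 / 8) :=
      mul_le_mul_of_nonneg_left e1 (by linarith)
    nlinarith

/-- two flat vertices of the upper chain that are neighbours among the flat ones -/
lemma Good.flat_flat (g : Good n L m δ) (hr : ∀ i, i < m → r i ≤ m) {a : ℕ}
    (ha : ¬ IsTooth m a) (s : ℕ) (hs : s = 1 ∨ (s = 2 ∧ IsTooth m (a + 1)))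
    (hb : a + s ≤ top n L) (hb2 : ¬ IsTooth m (a + s)) :
    segment ℝ ((a : ℝ), bH n L m δ r a) (((a + s : ℕ) : ℝ), bH n L m δ r (a + s)) ⊆
      bP n L m δ r := by
  have hbL : a + s ≤ L := by rcases g.top_cases with h | h <;> omega
  have hs0 : 1 ≤ s := by omega
  apply g.vis (by omega) hbL (by omega)
  · exact ⟨g.bG_le_bH (by omega), le_rfl⟩
  · exact ⟨g.bG_le_bH hbL, le_rfl⟩
  · intro k t h1 h2 ht0 ht1 hk
    rw [min_eq_left (by omega)] at h1
    rw [max_eq_right (by omega)] at h2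
    rcases hs with rfl | ⟨rfl, ht⟩
    · omega
    · have hk1 : k = a + 1 := by omega
      subst hk1
      have ht2 : t = 1 / 2 := by
        push_cast at hk
        linarith
      subst ht2
      rw [bH_of (g.not_tip (by omega : a ≤ top n L)), bH_of (g.not_tip hb),
        bH_of (g.not_tip (by omega : a + 1 ≤ top n L)), dep_zero ha, dep_zero hb2]
      have e1 : δ ≤ dep m r (a + 1) := by
        rw [dep_tooth ht]
        have h3 : r ((a + 1) / 2) ≤ m := hr _ (by have := ht.2; omega)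
        have h4 : (r ((a + 1) / 2) : ℝ) ≤ L := by
          have := g.hL
          have : r ((a + 1) / 2) ≤ L := by omega
          exact_mod_cast this
        have h5 := g.b4
        have h6 := g.pos
        have h7 := g.L1
        have h8 : (0 : ℝ) ≤ r ((a + 1) / 2) := Nat.cast_nonneg _
        rw [le_div_iff₀ (by positivity)]
        have h9 : (L : ℝ) + 1 ≤ ((L : ℝ) + 1) ^ 4 := by
          nlinarith [sq_nonneg ((L : ℝ)), pow_nonneg (by linarith : (0 : ℝ) ≤ L) 3,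
            pow_nonneg (by linarith : (0 : ℝ) ≤ L) 4]
        have h10 : δ * ((L : ℝ) + 1) ≤ 1 / 8 :=
          (mul_le_mul_of_nonneg_left h9 h6.le).trans h5
        nlinarith
      push_cast
      nlinarith

/-- two vertices of an edge see each other -/
lemma Good.step (g : Good n L m δ) {a b : ℕ} (ha : a ≤ top n L) (hb : b ≤ top n L)
    (hab : b = a + 1 ∨ a = b + 1) :
    segment ℝ ((a : ℝ), bH n L m δ r a) ((b : ℝ), bH n L m δ r b) ⊆ bP n L m δ r := by
  have haL : a ≤ L := by rcases g.top_cases with h | h <;> omega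
  have hbL : b ≤ L := by rcases g.top_cases with h | h <;> omega
  apply g.vis haL hbL (by omega)
  · exact ⟨g.bG_le_bH haL, le_rfl⟩
  · exact ⟨g.bG_le_bH hbL, le_rfl⟩
  · intro k t h1 h2 ht0 ht1 hk
    exfalso
    rcases hab with h | h
    · rw [min_eq_left (by omega)] at h1
      rw [max_eq_right (by omega)] at h2
      omega
    · rw [min_eq_right (by omega)] at h1
      rw [max_eq_left (by omega)] at h2
      omega

/-- a flat vertex strictly between two flat vertices blocks -/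
lemma Good.flat_block (g : Good n L m δ) {a b k : ℕ} (hak : a < k) (hkb : k < b)
    (hb : b ≤ top n L) (hk : ¬ IsTooth m k) :
    ¬ segment ℝ ((a : ℝ), bH n L m δ r a) ((b : ℝ), bH n L m δ r b) ⊆ bP n L m δ r := by
  have hbL : b ≤ L := by rcases g.top_cases with h | h <;> omega
  have h1 : (a : ℝ) + 1 ≤ k := by exact_mod_cast hak
  have h2 : (k : ℝ) + 1 ≤ b := by exact_mod_cast hkb
  have hba : 0 < (b : ℝ) - a := by linarith
  have e0 : (k : ℝ) = (1 - ((k : ℝ) - a) / (b - a)) * a + ((k : ℝ) - a) / (b - a) * b := by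
    field_simp
    ring
  apply not_vis_of a b k (by omega) (by omega) hbL _ _ (((k : ℝ) - a) / (b - a))
    (by rw [min_eq_left (by omega)]; omega) (by rw [max_eq_right (by omega)]; omega) e0
  set t := ((k : ℝ) - a) / (b - a) with ht
  have ht0 : 0 < t := div_pos (by linarith) hba
  have ht1 : t < 1 := by rw [ht, div_lt_one hba]; linarith
  rw [bH_of (g.not_tip (by omega : a ≤ top n L)), bH_of (g.not_tip hb),
    bH_of (g.not_tip (by omega : k ≤ top n L)), dep_zero hk]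
  have e1 := dep_nonneg m r a
  have e2 := dep_nonneg m r b
  have e3 : (1 - t) * (a : ℝ) ^ 2 + t * (b : ℝ) ^ 2 - (k : ℝ) ^ 2 = t * (1 - t) * ((b : ℝ) - a) ^ 2 := by
    rw [e0]; ring
  have e4 : 0 < t * (1 - t) * ((b : ℝ) - a) ^ 2 :=
    mul_pos (mul_pos ht0 (by linarith)) (by positivity)
  have e5 := mul_pos g.pos e4
  have e6 : 0 ≤ (1 - t) * dep m r a := mul_nonneg (by linarith) e1
  have e7 : 0 ≤ t * dep m r b := mul_nonneg ht0.le e2
  have e8 : (1 - t) * (1 + dep m r a + δ * ((a : ℝ) ^ 2 + 1 / 2)) +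
      t * (1 + dep m r b + δ * ((b : ℝ) ^ 2 + 1 / 2)) =
      1 + (1 - t) * dep m r a + t * dep m r b +
      δ * ((1 - t) * (a : ℝ) ^ 2 + t * (b : ℝ) ^ 2 + 1 / 2) := by ring
  rw [e8]
  have e9 : (1 - t) * (a : ℝ) ^ 2 + t * (b : ℝ) ^ 2 =
      (k : ℝ) ^ 2 + t * (1 - t) * ((b : ℝ) - a) ^ 2 := by linarith
  rw [e9]
  nlinarith

/-- the neighbours of a tooth are flat -/
lemma flat_pred {a : ℕ} (h : IsTooth m a) : ¬ IsTooth m (a - 1) ∧ ¬ IsTooth m (a + 1) := by
  unfold IsTooth at *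
  omega

/-- a tooth sees only its two neighbours on the upper chain -/
lemma Good.tooth_block (g : Good n L m δ) {a b : ℕ} (ha : IsTooth m a) (hb : b ≤ top n L)
    (ha' : a ≤ top n L) (hab : a + 2 ≤ b ∨ b + 2 ≤ a) :
    ¬ segment ℝ ((a : ℝ), bH n L m δ r a) ((b : ℝ), bH n L m δ r b) ⊆ bP n L m δ r := by
  have hbL : b ≤ L := by rcases g.top_cases with h | h <;> omega
  have haL : a ≤ L := by rcases g.top_cases with h | h <;> omega
  have hd := dep_pos (r := r) ha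
  have hd2 := dep_nonneg m r b
  obtain ⟨k, D, hD, hk, hka, hkb, hkt⟩ : ∃ (k : ℕ) (D : ℝ), 2 ≤ D ∧
      (k : ℝ) = (1 - 1 / D) * a + 1 / D * b ∧ min a b ≤ k ∧ k ≤ max a b ∧
      ¬ IsTooth m k ∧ k ≤ top n L := by
    rcases hab with h | h
    · refine ⟨a + 1, (b : ℝ) - a, ?_, ?_, ?_, ?_, (flat_pred ha).2, by omega⟩
      · have : (a : ℝ) + 2 ≤ b := by exact_mod_cast h
        linarith
      · have : (b : ℝ) - a ≠ 0 := by
          have : (a : ℝ) + 2 ≤ b := by exact_mod_cast h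
          linarith
        push_cast
        field_simp
        ring
      · rw [min_eq_left (by omega)]; omega
      · rw [max_eq_right (by omega)]; omega
    · refine ⟨a - 1, (a : ℝ) - b, ?_, ?_, ?_, ?_, (flat_pred ha).1, by omega⟩
      · have : (b : ℝ) + 2 ≤ a := by exact_mod_cast h
        linarith
      · have : (a : ℝ) - b ≠ 0 := by
          have : (b : ℝ) + 2 ≤ a := by exact_mod_cast h
          linarith
        rw [Nat.cast_sub (by omega)]
        push_cast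
        field_simp
        ring
      · rw [min_eq_right (by omega)]; omega
      · rw [max_eq_left (by omega)]; omega
  apply not_vis_of a b k (by omega) haL hbL _ _ (1 / D) hka hkb hk
  set t := 1 / D with ht
  have ht0 : 0 < t := by rw [ht]; positivity
  have ht1 : t < 1 := by rw [ht, div_lt_one (by linarith)]; linarith
  rw [bH_of (g.not_tip ha'), bH_of (g.not_tip hb), bH_of (g.not_tip hkt.2), dep_zero hkt.1]
  have e3 := sq_convex a b t k ht0.le ht1.le hk
  have e5 := mul_le_mul_of_nonneg_left e3 g.pos.le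
  have e6 : 0 < (1 - t) * dep m r a := mul_pos (by linarith) hd
  have e7 : 0 ≤ t * dep m r b := mul_nonneg ht0.le hd2
  have e8 : (1 - t) * (1 + dep m r a + δ * ((a : ℝ) ^ 2 + 1 / 2)) +
      t * (1 + dep m r b + δ * ((b : ℝ) ^ 2 + 1 / 2)) =
      1 + (1 - t) * dep m r a + t * dep m r b +
      δ * ((1 - t) * (a : ℝ) ^ 2 + t * (b : ℝ) ^ 2) + δ * (1 / 2) := by ring
  rw [e8]
  linarith

/-- the bound on `δ` used for the teeth -/
lemma Good.key (g : Good n L m δ) {R D : ℝ} (hR0 : 0 ≤ R) (hR : R ≤ L) (hD0 : 0 < D) (hD : D ≤ L) :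
    δ * ((L : ℝ) ^ 2 + 1 / 2) < 1 / ((2 * R + 1) * D) := by
  have hL1 := g.L1
  rw [lt_div_iff₀ (by positivity)]
  have h1 : (2 * R + 1) * D ≤ 2 * ((L : ℝ) + 1) ^ 2 := by
    have : (2 * R + 1) * D ≤ (2 * L + 1) * L :=
      mul_le_mul (by linarith) hD hD0.le (by linarith)
    nlinarith
  have h2 : (L : ℝ) ^ 2 + 1 / 2 ≤ ((L : ℝ) + 1) ^ 2 := by nlinarith
  have h3 : ((L : ℝ) ^ 2 + 1 / 2) * ((2 * R + 1) * D) ≤ 2 * ((L : ℝ) + 1) ^ 4 := by
    calc ((L : ℝ) ^ 2 + 1 / 2) * ((2 * R + 1) * D)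
        ≤ ((L : ℝ) + 1) ^ 2 * (2 * ((L : ℝ) + 1) ^ 2) :=
          mul_le_mul h2 h1 (by positivity) (by positivity)
      _ = 2 * ((L : ℝ) + 1) ^ 4 := by ring
  have h4 := g.b4
  have h5 := mul_le_mul_of_nonneg_left h3 g.pos.le
  nlinarith

/-- a tooth sees the near vertices of the lower chain -/
lemma Good.tooth_sees (g : Good n L m δ) (hr : ∀ i, i < m → r i ≤ m) {i b : ℕ} (hi : i < m)
    (hb1 : 2 * i + 1 ≤ b + (r i + 1)) (hb2 : b ≤ 2 * i + 1 + (r i + 1))
    (hab : 2 * i + 1 ≠ b) :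
    segment ℝ (((2 * i + 1 : ℕ) : ℝ), bH n L m δ r (2 * i + 1)) ((b : ℝ), bG n L δ b) ⊆
      bP n L m δ r := by
  have hri := hr i hi
  have hgL := g.hL
  have hT : IsTooth m (2 * i + 1) := ⟨by omega, by omega⟩
  have hbL : b < L := by omega
  have haL : 2 * i + 1 < L := by omega
  have hat : 2 * i + 1 ≤ top n L := by rcases g.top_cases with h | h <;> omega
  apply g.vis haL.le hbL.le hab
  · exact ⟨g.bG_le_bH haL.le, le_rfl⟩
  · exact ⟨le_rfl, g.bG_le_bH hbL.le⟩
  · intro k t h1 h2 ht0 ht1 hk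
    have hkL := between_lt haL.le hbL.le h2
    have e3 := g.one_le_bH (r := r) (x := k) (by omega)
    refine le_trans ?_ e3
    rw [bH_of (g.not_tip hat), dep_tooth hT, bG_of (by omega : ¬ (n = 2 * L + 1 ∧ b = L))]
    have hdiv : (2 * i + 1) / 2 = i := by omega
    rw [hdiv]
    set R : ℝ := (r i : ℝ) with hR
    have hR0 : 0 ≤ R := Nat.cast_nonneg _
    have hRL : R ≤ L := by
      have : r i ≤ L := by omega
      rw [hR]; exact_mod_cast this
    -- the distance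
    obtain ⟨D, hD1, hD2, hD3, hD4⟩ : ∃ D : ℝ, 1 ≤ t * D ∧ 0 < D ∧ D ≤ R + 1 ∧ D ≤ L := by
      rcases Nat.lt_or_gt_of_ne hab with h3 | h3
      · rw [min_eq_left h3.le] at h1
        have h4 : ((2 * i + 1 : ℕ) : ℝ) + 1 ≤ k := by exact_mod_cast h1
        have h5 : ((2 * i + 1 : ℕ) : ℝ) < b := by exact_mod_cast h3
        have h6 : (b : ℝ) ≤ ((2 * i + 1 : ℕ) : ℝ) + (R + 1) := by
          rw [hR]; exact_mod_cast hb2
        have h7 : (b : ℝ) ≤ L := by exact_mod_cast hbL.le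
        have h8 : (0 : ℝ) ≤ ((2 * i + 1 : ℕ) : ℝ) := Nat.cast_nonneg _
        exact ⟨(b : ℝ) - ((2 * i + 1 : ℕ) : ℝ), by nlinarith, by linarith, by linarith,
          by linarith⟩
      · rw [max_eq_left h3.le] at h2
        have h4 : (k : ℝ) + 1 ≤ ((2 * i + 1 : ℕ) : ℝ) := by exact_mod_cast h2
        have h5 : (b : ℝ) < ((2 * i + 1 : ℕ) : ℝ) := by exact_mod_cast h3
        have h6 : ((2 * i + 1 : ℕ) : ℝ) ≤ (b : ℝ) + (R + 1) := by
          rw [hR]; exact_mod_cast hb1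
        have h7 : ((2 * i + 1 : ℕ) : ℝ) ≤ L := by exact_mod_cast haL.le
        have h8 : (0 : ℝ) ≤ (b : ℝ) := Nat.cast_nonneg _
        exact ⟨((2 * i + 1 : ℕ) : ℝ) - b, by nlinarith, by linarith, by linarith,
          by linarith⟩
    have hkey := g.key hR0 hRL hD2 hD4
    have hpos : 0 < (2 * R + 1) * D := by positivity
    -- base part
    have ht : 1 / D ≤ t := by rw [div_le_iff₀ hD2]; exact hD1
    have hh : 0 < 2 / (2 * R + 1) := by positivity
    have b1 : (1 - t) * (1 + 2 / (2 * R + 1)) ≤ (1 - 1 / D) * (1 + 2 / (2 * R + 1)) :=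
      mul_le_mul_of_nonneg_right (by linarith) (by linarith)
    have b2 : (1 - 1 / D) * (1 + 2 / (2 * R + 1)) ≤ 1 - 1 / ((2 * R + 1) * D) := by
      have h3 : (1 - 1 / D) * (1 + 2 / (2 * R + 1)) =
          1 - 1 / ((2 * R + 1) * D) + (2 * (D - 1) - (2 * R + 1) + 1) / ((2 * R + 1) * D) := by
        field_simp
        ring
      rw [h3]
      have : (2 * (D - 1) - (2 * R + 1) + 1) / ((2 * R + 1) * D) ≤ 0 :=
        div_nonpos_of_nonpos_of_nonneg (by linarith) hpos.le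
      linarith
    -- the part with `δ`
    have hbR : (b : ℝ) ≤ L := by exact_mod_cast hbL.le
    have hb0 : (0 : ℝ) ≤ b := Nat.cast_nonneg b
    have haR : ((2 * i + 1 : ℕ) : ℝ) ≤ L := by exact_mod_cast haL.le
    have ha0 : (0 : ℝ) ≤ ((2 * i + 1 : ℕ) : ℝ) := Nat.cast_nonneg _
    set A : ℝ := ((2 * i + 1 : ℕ) : ℝ) with hA
    have c1 : A ^ 2 + 1 / 2 ≤ (L : ℝ) ^ 2 + 1 / 2 := by nlinarith
    have c2 : (b : ℝ) ^ 2 ≤ (L : ℝ) ^ 2 + 1 / 2 := by nlinarith
    have c3 : (1 - t) * (δ * (A ^ 2 + 1 / 2)) ≤ (1 - t) * (δ * ((L : ℝ) ^ 2 + 1 / 2)) :=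
      mul_le_mul_of_nonneg_left (mul_le_mul_of_nonneg_left c1 g.pos.le) (by linarith)
    have c4 : t * (δ * (b : ℝ) ^ 2) ≤ t * (δ * ((L : ℝ) ^ 2 + 1 / 2)) :=
      mul_le_mul_of_nonneg_left (mul_le_mul_of_nonneg_left c2 g.pos.le) ht0.le
    have c5 : (1 - t) * (1 + 2 / (2 * R + 1) + δ * (A ^ 2 + 1 / 2)) =
        (1 - t) * (1 + 2 / (2 * R + 1)) + (1 - t) * (δ * (A ^ 2 + 1 / 2)) := by ring
    rw [c5]
    linarith

/-- a tooth does not see the far vertices of the lower chain -/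
lemma Good.tooth_not (g : Good n L m δ) (hr : ∀ i, i < m → r i ≤ m) {i b : ℕ} (hi : i < m)
    (hb : b ≤ L) (hab : b + (r i + 2) ≤ 2 * i + 1 ∨ 2 * i + 1 + (r i + 2) ≤ b) :
    ¬ segment ℝ (((2 * i + 1 : ℕ) : ℝ), bH n L m δ r (2 * i + 1)) ((b : ℝ), bG n L δ b) ⊆
      bP n L m δ r := by
  have hri := hr i hi
  have hgL := g.hL
  have hT : IsTooth m (2 * i + 1) := ⟨by omega, by omega⟩
  have haL : 2 * i + 1 < L := by omega
  have hat : 2 * i + 1 ≤ top n L := by rcases g.top_cases with h | h <;> omega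
  set R : ℝ := (r i : ℝ) with hR
  have hR0 : 0 ≤ R := Nat.cast_nonneg _
  have hRL : R ≤ L := by
    have : r i ≤ L := by omega
    rw [hR]; exact_mod_cast this
  obtain ⟨k, D, hD, hDL, hk, hka, hkb, hkt⟩ : ∃ (k : ℕ) (D : ℝ), R + 2 ≤ D ∧ D ≤ L ∧
      (k : ℝ) = (1 - 1 / D) * ((2 * i + 1 : ℕ) : ℝ) + 1 / D * b ∧ min (2 * i + 1) b ≤ k ∧
      k ≤ max (2 * i + 1) b ∧ ¬ IsTooth m k ∧ k < L := by
    rcases hab with h | h
    · have h5 : (b : ℝ) + (R + 2) ≤ ((2 * i + 1 : ℕ) : ℝ) := by rw [hR]; exact_mod_cast h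
      have h7 : ((2 * i + 1 : ℕ) : ℝ) ≤ L := by exact_mod_cast haL.le
      have h8 : (0 : ℝ) ≤ (b : ℝ) := Nat.cast_nonneg _
      refine ⟨2 * i + 1 - 1, ((2 * i + 1 : ℕ) : ℝ) - b, by linarith, by linarith, ?_, ?_, ?_,
        (flat_pred hT).1, by omega⟩
      · have : ((2 * i + 1 : ℕ) : ℝ) - b ≠ 0 := by linarith
        rw [Nat.cast_sub (by omega)]
        field_simp
        push_cast
        ring
      · rw [min_eq_right (by omega)]; omega
      · rw [max_eq_left (by omega)]; omega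
    · have h5 : ((2 * i + 1 : ℕ) : ℝ) + (R + 2) ≤ b := by rw [hR]; exact_mod_cast h
      have h7 : (b : ℝ) ≤ L := by exact_mod_cast hb
      have h8 : (0 : ℝ) ≤ ((2 * i + 1 : ℕ) : ℝ) := Nat.cast_nonneg _
      refine ⟨2 * i + 1 + 1, (b : ℝ) - ((2 * i + 1 : ℕ) : ℝ), by linarith, by linarith, ?_, ?_,
        ?_, (flat_pred hT).2, by omega⟩
      · have : (b : ℝ) - ((2 * i + 1 : ℕ) : ℝ) ≠ 0 := by linarith
        rw [Nat.cast_add]
        field_simp
        push_cast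
        ring
      · rw [min_eq_left (by omega)]; omega
      · rw [max_eq_right (by omega)]; omega
  apply not_vis_of (2 * i + 1) b k (by omega) haL.le hb _ _ (1 / D) hka hkb hk
  have hD2 : 0 < D := by linarith
  rw [bH_of (g.not_tip hat), bH_of (by omega : ¬ (n = 2 * L + 1 ∧ k = L)), dep_zero hkt.1,
    dep_tooth hT]
  have hdiv : (2 * i + 1) / 2 = i := by omega
  rw [hdiv, ← hR]
  have hkey := g.key hR0 hRL hD2 hDL
  have hpos : 0 < (2 * R + 1) * D := by positivity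
  have b2 : 1 + 1 / ((2 * R + 1) * D) ≤ (1 - 1 / D) * (1 + 2 / (2 * R + 1)) := by
    have h3 : (1 - 1 / D) * (1 + 2 / (2 * R + 1)) =
        1 + 1 / ((2 * R + 1) * D) + (2 * (D - 1) - (2 * R + 1) - 1) / ((2 * R + 1) * D) := by
      field_simp
      ring
    rw [h3]
    have : 0 ≤ (2 * (D - 1) - (2 * R + 1) - 1) / ((2 * R + 1) * D) :=
      div_nonneg (by linarith) hpos.le
    linarith
  have ht1 : 1 / D < 1 := by rw [div_lt_one hD2]; linarith
  have ht0 : 0 < 1 / D := by positivity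
  have c1 : 0 ≤ bG n L δ b := by
    have := bG_ge (n := n) (L := L) (δ := δ) b
    have h3 : 0 ≤ δ * (b : ℝ) ^ 2 := mul_nonneg g.pos.le (by positivity)
    linarith
  have c2 : 0 ≤ 1 / D * bG n L δ b := mul_nonneg ht0.le c1
  have c3 : 0 ≤ (1 - 1 / D) * (δ * (((2 * i + 1 : ℕ) : ℝ) ^ 2 + 1 / 2)) :=
    mul_nonneg (by linarith) (mul_nonneg g.pos.le (by positivity))
  have c4 : δ * ((k : ℝ) ^ 2 + 1 / 2) ≤ δ * ((L : ℝ) ^ 2 + 1 / 2) := by
    apply mul_le_mul_of_nonneg_left _ g.pos.le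
    have h3 : (k : ℝ) ≤ L := by exact_mod_cast hkt.2.le
    have h4 : (0 : ℝ) ≤ k := Nat.cast_nonneg k
    nlinarith
  have c5 : (1 - 1 / D) * (1 + 2 / (2 * R + 1) + δ * (((2 * i + 1 : ℕ) : ℝ) ^ 2 + 1 / 2)) =
      (1 - 1 / D) * (1 + 2 / (2 * R + 1)) +
      (1 - 1 / D) * (δ * (((2 * i + 1 : ℕ) : ℝ) ^ 2 + 1 / 2)) := by ring
  rw [c5]
  linarith

/-- the two vertices over the same abscissa see each other -/
lemma Good.vertical (g : Good n L m δ) {a : ℕ} (ha : a ≤ L) :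
    segment ℝ ((a : ℝ), bG n L δ a) ((a : ℝ), bH n L m δ r a) ⊆ bP n L m δ r := by
  intro p hp
  rw [mem_vseg (g.bG_le_bH ha)] at hp
  obtain ⟨h1, h2, h3⟩ := hp
  refine ⟨by rw [h1]; exact Nat.cast_nonneg a, by rw [h1]; exact_mod_cast ha, ?_, ?_⟩
  · rw [h1, pl_nat _ _ _ ha]; exact h2
  · rw [h1, pl_nat _ _ _ ha]; exact h3

end

end Pool.Agent.Y402.VG
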