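import Pool.Agent.TH695.BC.Comb

/-!
# Monotone polygons with prescribed depths of the teeth of the upper chain

`bH` are the heights of the upper chain and `bG` the heights of the lower chain. The tooth number
`i < m` is the vertex of the upper chain over `2 * i + 1`; it sees exactly the vertices of the lower
chain at horizontal distance at most `r i + 1`.
-/

set_option autoImplicit false

namespace Pool.Agent.Y402.VG

open Set Vis124 Pool.Agent.TH695.BC

/-- the upper chain has a tooth over `x` -/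
def IsTooth (m x : ℕ) : Prop := x % 2 = 1 ∧ x < 2 * m

instance (m x : ℕ) : Decidable (IsTooth m x) := by unfold IsTooth; infer_instance

/-- the depth of the teeth -/
noncomputable def dep (m : ℕ) (r : ℕ → ℕ) (x : ℕ) : ℝ :=
  if IsTooth m x then 2 / (2 * (r (x / 2) : ℝ) + 1) else 0

/-- heights of the upper chain, with the tip at the right end for odd `n` -/
noncomputable def bH (n L m : ℕ) (δ : ℝ) (r : ℕ → ℕ) (x : ℕ) : ℝ :=
  if n = 2 * L + 1 ∧ x = L then 1 / 2 + δ * (x : ℝ) ^ 2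
  else 1 + dep m r x + δ * ((x : ℝ) ^ 2 + 1 / 2)

/-- heights of the lower chain, with the tip at the right end for odd `n` -/
noncomputable def bG (n L : ℕ) (δ : ℝ) (x : ℕ) : ℝ :=
  if n = 2 * L + 1 ∧ x = L then 1 / 2 + δ * (x : ℝ) ^ 2 else δ * (x : ℝ) ^ 2

/-- the hypotheses on the parameters -/
structure Good (n L m : ℕ) (δ : ℝ) : Prop where
  hn : n = 2 * L + 2 ∨ n = 2 * L + 1
  hL : 3 * m + 8 ≤ L
  pos : 0 < δ
  small : δ * (8 * ((L : ℝ) + 1) ^ 4) ≤ 1

/-- the largest abscissa of the proper vertices of the upper chain -/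
def top (n L : ℕ) : ℕ := n - 2 - L

section

variable {n L m : ℕ} {δ : ℝ} {r : ℕ → ℕ}

lemma dep_nonneg (m : ℕ) (r : ℕ → ℕ) (x : ℕ) : 0 ≤ dep m r x := by
  unfold dep
  split_ifs
  · positivity
  · exact le_rfl

lemma dep_zero {x : ℕ} (h : ¬ IsTooth m x) : dep m r x = 0 := by
  unfold dep; rw [if_neg h]

lemma dep_tooth {x : ℕ} (h : IsTooth m x) : dep m r x = 2 / (2 * (r (x / 2) : ℝ) + 1) := by
  unfold dep; rw [if_pos h]

lemma dep_pos {x : ℕ} (h : IsTooth m x) : 0 < dep m r x := by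
  rw [dep_tooth h]; positivity

lemma Good.top_cases (g : Good n L m δ) : (n = 2 * L + 2 ∧ top n L = L) ∨
    (n = 2 * L + 1 ∧ top n L + 1 = L) := by
  have := g.hL
  unfold top
  rcases g.hn with h | h
  · left; omega
  · right; omega

lemma Good.L1 (g : Good n L m δ) : (8 : ℝ) ≤ L := by
  have := g.hL
  have h : 8 ≤ L := by omega
  exact_mod_cast h

/-- the derived bounds for `δ` -/
lemma Good.b4 (g : Good n L m δ) : δ * ((L : ℝ) + 1) ^ 4 ≤ 1 / 8 := by
  have := g.small; linarith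

lemma Good.b2 (g : Good n L m δ) : δ * (L : ℝ) ^ 2 ≤ 1 / 8 := by
  have h1 := g.b4
  have h2 := g.pos
  have h3 : (L : ℝ) ^ 2 ≤ ((L : ℝ) + 1) ^ 4 := by
    have : (0 : ℝ) ≤ L := Nat.cast_nonneg L
    nlinarith [sq_nonneg ((L : ℝ)), pow_nonneg this 3, pow_nonneg this 4]
  nlinarith

lemma bH_of {x : ℕ} (h : ¬ (n = 2 * L + 1 ∧ x = L)) :
    bH n L m δ r x = 1 + dep m r x + δ * ((x : ℝ) ^ 2 + 1 / 2) := by
  unfold bH; rw [if_neg h]

lemma bG_of {x : ℕ} (h : ¬ (n = 2 * L + 1 ∧ x = L)) :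
    bG n L δ x = δ * (x : ℝ) ^ 2 := by
  unfold bG; rw [if_neg h]

lemma Good.not_tip (g : Good n L m δ) {x : ℕ} (h : x ≤ top n L) : ¬ (n = 2 * L + 1 ∧ x = L) := by
  rcases g.top_cases with h1 | h1
  · omega
  · omega

lemma bG_ge (x : ℕ) : δ * (x : ℝ) ^ 2 ≤ bG n L δ x := by
  unfold bG
  split_ifs
  · linarith
  · exact le_rfl

lemma Good.bG_le (g : Good n L m δ) {x : ℕ} (h : x ≤ L) : bG n L δ x ≤ 5 / 8 := by
  have h1 := g.b2
  have h2 : (x : ℝ) ≤ L := by exact_mod_cast h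
  have h3 : (0 : ℝ) ≤ x := Nat.cast_nonneg x
  have h4 : (x : ℝ) ^ 2 ≤ (L : ℝ) ^ 2 := by nlinarith
  have h5 : δ * (x : ℝ) ^ 2 ≤ δ * (L : ℝ) ^ 2 := mul_le_mul_of_nonneg_left h4 g.pos.le
  unfold bG
  split_ifs <;> linarith

lemma Good.bG_le' (g : Good n L m δ) {x : ℕ} (h : x ≤ L) (hx : ¬ (n = 2 * L + 1 ∧ x = L)) :
    bG n L δ x ≤ 1 / 8 := by
  have h1 := g.b2
  have h2 : (x : ℝ) ≤ L := by exact_mod_cast h
  have h3 : (0 : ℝ) ≤ x := Nat.cast_nonneg x
  have h4 : (x : ℝ) ^ 2 ≤ (L : ℝ) ^ 2 := by nlinarith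
  have h5 : δ * (x : ℝ) ^ 2 ≤ δ * (L : ℝ) ^ 2 := mul_le_mul_of_nonneg_left h4 g.pos.le
  rw [bG_of hx]
  linarith

lemma Good.one_le_bH (g : Good n L m δ) {x : ℕ} (h : ¬ (n = 2 * L + 1 ∧ x = L)) :
    1 ≤ bH n L m δ r x := by
  rw [bH_of h]
  have h1 := dep_nonneg m r x
  have h2 : 0 ≤ δ * ((x : ℝ) ^ 2 + 1 / 2) := mul_nonneg g.pos.le (by positivity)
  linarith

lemma Good.bG_le_bH (g : Good n L m δ) {x : ℕ} (h : x ≤ L) :
    bG n L δ x ≤ bH n L m δ r x := by
  by_cases hx : n = 2 * L + 1 ∧ x = L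
  · unfold bG bH; rw [if_pos hx, if_pos hx]
  · have h1 := g.bG_le h
    have h2 := g.one_le_bH (r := r) hx
    linarith

/-- the heights define a monotone polygon -/
lemma Good.heights (g : Good n L m δ) : Heights n L (bG n L δ) (bH n L m δ r) where
  hL := by have := g.hL; omega
  lt k hk := by
    have h1 := g.bG_le hk.le
    have h2 : ¬ (n = 2 * L + 1 ∧ k = L) := by omega
    have h3 := g.one_le_bH (r := r) h2
    linarith
  tip := by
    rcases g.hn with h | h
    · left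
      refine ⟨h, ?_⟩
      have h2 : ¬ (n = 2 * L + 1 ∧ L = L) := by omega
      have h1 := g.bG_le (le_refl L)
      have h3 := g.one_le_bH (r := r) h2
      linarith
    · right
      refine ⟨h, ?_⟩
      unfold bG bH
      rw [if_pos ⟨h, rfl⟩, if_pos ⟨h, rfl⟩]

/-- the polygon -/
noncomputable def bv (n L m : ℕ) (δ : ℝ) (r : ℕ → ℕ) : Fin n → ℝ × ℝ :=
  mv n L (bG n L δ) (bH n L m δ r)

/-- the region -/
noncomputable def bP (n L m : ℕ) (δ : ℝ) (r : ℕ → ℕ) : Set (ℝ × ℝ) :=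
  region L (pl (bG n L δ) L) (pl (bH n L m δ r) L)

lemma Good.simple (g : Good n L m δ) : IsSimplePolygon (bv n L m δ r) (bP n L m δ r) :=
  g.heights.isSimplePolygon

/-- visibility in a monotone polygon, the end points in any order -/
lemma seg_region' {L : ℕ} {G H : ℕ → ℝ} (a b : ℕ) (hab : a ≠ b) (ha : a ≤ L) (hb : b ≤ L)
    (ya yb : ℝ) :
    segment ℝ ((a : ℝ), ya) ((b : ℝ), yb) ⊆ region L (pl G L) (pl H L) ↔
      ∀ k : ℕ, min a b ≤ k → k ≤ max a b → G k ≤ ya + ((k : ℝ) - a) / (b - a) * (yb - ya) ∧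
        ya + ((k : ℝ) - a) / (b - a) * (yb - ya) ≤ H k := by
  rcases Nat.lt_or_gt_of_ne hab with h | h
  · rw [seg_region a b h hb, min_eq_left h.le, max_eq_right h.le]
  · rw [segment_symm, seg_region b a h ha, min_eq_right h.le, max_eq_left h.le]
    have hne : (a : ℝ) - b ≠ 0 := by
      have : (b : ℝ) < a := by exact_mod_cast h
      linarith
    have hne' : (b : ℝ) - a ≠ 0 := by
      intro h0; apply hne; linarith
    have key : ∀ k : ℕ, yb + ((k : ℝ) - b) / (a - b) * (ya - yb) =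
        ya + ((k : ℝ) - a) / (b - a) * (yb - ya) := by
      intro k
      field_simp
      ring
    simp only [key]

/-- a criterion for visibility -/
lemma vis_of {L : ℕ} {G H : ℕ → ℝ} (a b : ℕ) (hab : a ≠ b) (ha : a ≤ L) (hb : b ≤ L)
    (ya yb : ℝ)
    (h : ∀ k : ℕ, ∀ t : ℝ, min a b ≤ k → k ≤ max a b → 0 ≤ t → t ≤ 1 →
      (k : ℝ) = (1 - t) * a + t * b →
      G k ≤ (1 - t) * ya + t * yb ∧ (1 - t) * ya + t * yb ≤ H k) :
    segment ℝ ((a : ℝ), ya) ((b : ℝ), yb) ⊆ region L (pl G L) (pl H L) := by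
  rw [seg_region' a b hab ha hb]
  intro k h1 h2
  have hne' : (b : ℝ) - a ≠ 0 := by
    intro h0
    apply hab
    have : (a : ℝ) = b := by linarith
    exact_mod_cast this
  have e : ya + ((k : ℝ) - a) / (b - a) * (yb - ya) =
      (1 - ((k : ℝ) - a) / (b - a)) * ya + ((k : ℝ) - a) / (b - a) * yb := by ring
  rw [e]
  apply h k _ h1 h2
  · rcases Nat.lt_or_gt_of_ne hab with h3 | h3
    · rw [min_eq_left h3.le] at h1
      have h4 : (a : ℝ) ≤ k := by exact_mod_cast h1
      have h5 : (a : ℝ) < b := by exact_mod_cast h3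
      exact div_nonneg (by linarith) (by linarith)
    · rw [max_eq_left h3.le] at h2
      have h4 : (k : ℝ) ≤ a := by exact_mod_cast h2
      have h5 : (b : ℝ) < a := by exact_mod_cast h3
      exact div_nonneg_of_nonpos (by linarith) (by linarith)
  · rcases Nat.lt_or_gt_of_ne hab with h3 | h3
    · rw [max_eq_right h3.le] at h2
      have h4 : (k : ℝ) ≤ b := by exact_mod_cast h2
      have h5 : (a : ℝ) < b := by exact_mod_cast h3
      rw [div_le_one (by linarith)]
      linarith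
    · rw [min_eq_right h3.le] at h1
      have h4 : (b : ℝ) ≤ k := by exact_mod_cast h1
      have h5 : (b : ℝ) < a := by exact_mod_cast h3
      rw [div_le_one_of_neg (by linarith)]
      linarith
  · field_simp
    ring

/-- a criterion for invisibility -/
lemma not_vis_of {L : ℕ} {G H : ℕ → ℝ} (a b k : ℕ) (hab : a ≠ b) (ha : a ≤ L) (hb : b ≤ L)
    (ya yb t : ℝ) (h1 : min a b ≤ k) (h2 : k ≤ max a b)
    (hk : (k : ℝ) = (1 - t) * a + t * b) (h : H k < (1 - t) * ya + t * yb) :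
    ¬ segment ℝ ((a : ℝ), ya) ((b : ℝ), yb) ⊆ region L (pl G L) (pl H L) := by
  rw [seg_region' a b hab ha hb]
  intro hall
  obtain ⟨-, h3⟩ := hall k h1 h2
  have hne' : (b : ℝ) - a ≠ 0 := by
    intro h0
    apply hab
    have : (a : ℝ) = b := by linarith
    exact_mod_cast this
  have e : ((k : ℝ) - a) / (b - a) = t := by
    rw [hk]
    field_simp
    ring
  rw [e] at h3
  have : ya + t * (yb - ya) = (1 - t) * ya + t * yb := by ring
  linarith

/-- convexity of the square -/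
lemma sq_convex (a b t k : ℝ) (h0 : 0 ≤ t) (h1 : t ≤ 1) (hk : k = (1 - t) * a + t * b) :
    k ^ 2 ≤ (1 - t) * a ^ 2 + t * b ^ 2 := by
  subst hk
  nlinarith [mul_nonneg (mul_nonneg h0 (sub_nonneg.mpr h1)) (sq_nonneg (a - b))]

/-- everything above the parabola stays above the lower chain -/
lemma lower_ok (g : Good n L m δ) {a b : ℕ} (ha : a ≤ L) (hb : b ≤ L) (hab : a ≠ b) (ya yb : ℝ)
    (hya : bG n L δ a ≤ ya) (hyb : bG n L δ b ≤ yb) (k : ℕ) (t : ℝ) (h1 : min a b ≤ k)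
    (h2 : k ≤ max a b) (ht0 : 0 ≤ t) (ht1 : t ≤ 1) (hk : (k : ℝ) = (1 - t) * a + t * b) :
    bG n L δ k ≤ (1 - t) * ya + t * yb := by
  have hne' : (b : ℝ) - a ≠ 0 := by
    intro h0
    apply hab
    have : (a : ℝ) = b := by linarith
    exact_mod_cast this
  by_cases hka : k = a
  · have : t = 0 := by
      have h3 : t * ((b : ℝ) - a) = 0 := by
        rw [hka] at hk
        linarith
      rcases mul_eq_zero.mp h3 with h4 | h4
      · exact h4
      · exact absurd h4 hne'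
    rw [this, hka]
    linarith
  by_cases hkb : k = b
  · have : t = 1 := by
      have h3 : (1 - t) * ((b : ℝ) - a) = 0 := by
        rw [hkb] at hk
        linarith
      rcases mul_eq_zero.mp h3 with h4 | h4
      · linarith
      · exact absurd h4 hne'
    rw [this, hkb]
    linarith
  have hkL : k ≠ L := by
    intro h3
    rcases Nat.le_total a b with h4 | h4
    · rw [max_eq_right h4] at h2; omega
    · rw [max_eq_left h4] at h2; omega
  rw [bG_of (by omega)]
  have e1 := bG_ge (n := n) (L := L) (δ := δ) a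
  have e2 := bG_ge (n := n) (L := L) (δ := δ) b
  have e3 := sq_convex a b t k ht0 ht1 hk
  have e4 := g.pos
  have e5 : δ * (k : ℝ) ^ 2 ≤ δ * ((1 - t) * (a : ℝ) ^ 2 + t * (b : ℝ) ^ 2) :=
    mul_le_mul_of_nonneg_left e3 e4.le
  have e6 : (1 - t) * (δ * (a : ℝ) ^ 2) ≤ (1 - t) * ya :=
    mul_le_mul_of_nonneg_left (e1.trans hya) (by linarith)
  have e7 : t * (δ * (b : ℝ) ^ 2) ≤ t * yb :=
    mul_le_mul_of_nonneg_left (e2.trans hyb) ht0
  nlinarith

end

end Pool.Agent.Y402.VG
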