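import Pool.Agent.Y402.VG.Adj

/-!
# The depths of the teeth can be read off from the visibility graph
-/

set_option autoImplicit false

namespace Pool.Agent.Y402.VG

open Set Vis124 Pool.Agent.TH695.BC

lemma ncard_iso {V W : Type*} {G : SimpleGraph V} {H : SimpleGraph W} (φ : G ≃g H) (v : V) :
    (H.neighborSet (φ v)).ncard = (G.neighborSet v).ncard := by
  have h : H.neighborSet (φ v) = φ '' G.neighborSet v := by
    ext w
    constructor
    · intro hw
      refine ⟨φ.symm w, ?_, φ.apply_symm_apply w⟩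
      have hw' : H.Adj (φ v) w := hw
      change G.Adj v (φ.symm w)
      rw [← φ.map_adj_iff, φ.apply_symm_apply]
      exact hw'
    · rintro ⟨u, hu, rfl⟩
      exact φ.map_adj_iff.mpr hu
  rw [h]
  exact ncard_image_of_injective _ φ.injective

/-- abscissa of the flat vertex number `j` of the upper chain -/
def cp (m j : ℕ) : ℕ := if j ≤ m then 2 * j else m + j

section

variable {n L m : ℕ} {δ : ℝ} {r : ℕ → ℕ}

/-- the visibility graph of the toothed polygon -/
noncomputable def Gr (n L m : ℕ) (δ : ℝ) (r : ℕ → ℕ) : SimpleGraph (Fin n) :=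
  visGraph (bv n L m δ r) (bP n L m δ r)

lemma Good.npos (g : Good n L m δ) : L + 1 < n := by
  have := g.hL
  rcases g.hn with h | h <;> omega

/-- vertices of the lower chain -/
def Good.lo (g : Good n L m δ) (x : ℕ) : Fin n := ⟨min x L, by have := g.npos; omega⟩

/-- vertices of the upper chain -/
def Good.up (g : Good n L m δ) (x : ℕ) : Fin n := ⟨n - 1 - x, by have := g.npos; omega⟩

lemma Good.bv_lo (g : Good n L m δ) {x : ℕ} (hx : x ≤ L) :
    bv n L m δ r (g.lo x) = ((x : ℝ), bG n L δ x) := by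
  have h : ((g.lo x : Fin n) : ℕ) = x := min_eq_left hx
  unfold bv mv
  rw [if_pos (by rw [h]; exact hx), h]

lemma Good.top_lt (g : Good n L m δ) {x : ℕ} (hx : x ≤ top n L) : n - 1 - x > L ∧ x ≤ L := by
  have := g.hL
  rcases g.top_cases with h | h <;> omega

lemma Good.bv_up (g : Good n L m δ) {x : ℕ} (hx : x ≤ top n L) :
    bv n L m δ r (g.up x) = ((x : ℝ), bH n L m δ r x) := by
  have h : ((g.up x : Fin n) : ℕ) = n - 1 - x := rfl
  have h1 := g.top_lt hx
  have h3 := g.npos
  have h2 : n - 1 - (n - 1 - x) = x := by omega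
  unfold bv mv
  rw [if_neg (by omega), h, h2]

lemma Good.low_cases (g : Good n L m δ) (v : Fin n) (h : (v : ℕ) ≤ L) :
    ∃ x, x ≤ L ∧ v = g.lo x :=
  ⟨v, h, Fin.ext (min_eq_left h).symm⟩

lemma Good.up_cases (g : Good n L m δ) (v : Fin n) (h : ¬ (v : ℕ) ≤ L) :
    ∃ x, x ≤ top n L ∧ v = g.up x := by
  refine ⟨n - 1 - v, ?_, ?_⟩
  · have := v.2
    unfold top; omega
  · apply Fin.ext
    have := v.2
    change (v : ℕ) = n - 1 - (n - 1 - v)
    omega

lemma Good.lo_val (g : Good n L m δ) {x : ℕ} (hx : x ≤ L) : ((g.lo x : Fin n) : ℕ) = x :=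
  min_eq_left hx

lemma Good.lo_low (g : Good n L m δ) (x : ℕ) : ((g.lo x : Fin n) : ℕ) ≤ L := min_le_right _ _

lemma Good.up_not_low (g : Good n L m δ) {x : ℕ} (hx : x ≤ top n L) :
    ¬ ((g.up x : Fin n) : ℕ) ≤ L := by
  have := g.top_lt hx
  change ¬ (n - 1 - x ≤ L)
  omega

lemma Good.up_inj (g : Good n L m δ) {x y : ℕ} (hx : x ≤ top n L) (hy : y ≤ top n L)
    (h : g.up x = g.up y) : x = y := by
  have h1 : n - 1 - x = n - 1 - y := congrArg Fin.val h
  have := g.top_lt hx
  have := g.top_lt hy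
  have := g.npos
  omega

lemma Good.lo_ne_up (g : Good n L m δ) (x : ℕ) {y : ℕ} (hy : y ≤ top n L) : g.lo x ≠ g.up y := by
  intro h
  apply g.up_not_low hy
  rw [← h]
  exact g.lo_low x

lemma Good.adj_lo_lo (g : Good n L m δ) {a b : ℕ} (ha : a ≤ L) (hb : b ≤ L) (hab : a ≠ b) :
    (Gr n L m δ r).Adj (g.lo a) (g.lo b) := by
  refine ⟨?_, ?_⟩
  · intro h
    apply hab
    have := congrArg Fin.val h
    rwa [g.lo_val ha, g.lo_val hb] at this
  · rw [g.bv_lo ha, g.bv_lo hb]
    exact g.low_low ha hb hab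

lemma Good.adj_lo_flat (g : Good n L m δ) {a b : ℕ} (ha : a ≤ L) (hb : b ≤ top n L)
    (hf : ¬ IsTooth m b) : (Gr n L m δ r).Adj (g.lo a) (g.up b) := by
  refine ⟨g.lo_ne_up a hb, ?_⟩
  rw [g.bv_lo ha, g.bv_up hb]
  rcases eq_or_ne a b with h | h
  · subst h
    exact g.vertical ha
  · exact g.low_flat ha hb h hf

lemma Good.adj_tooth_lo (g : Good n L m δ) (hr : ∀ i, i < m → r i ≤ m) {i b : ℕ} (hi : i < m)
    (hb : b ≤ L) : (Gr n L m δ r).Adj (g.up (2 * i + 1)) (g.lo b) ↔
      (2 * i + 1 ≤ b + (r i + 1) ∧ b ≤ 2 * i + 1 + (r i + 1)) := by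
  have hgL := g.hL
  have hat : 2 * i + 1 ≤ top n L := by rcases g.top_cases with h | h <;> omega
  constructor
  · rintro ⟨-, h⟩
    rw [g.bv_lo hb, g.bv_up hat] at h
    by_contra hcon
    exact g.tooth_not hr hi hb (by omega) h
  · rintro ⟨h1, h2⟩
    refine ⟨(g.lo_ne_up b hat).symm, ?_⟩
    rw [g.bv_lo hb, g.bv_up hat]
    rcases eq_or_ne (2 * i + 1) b with h | h
    · subst h
      rw [segment_symm]
      exact g.vertical hb
    · exact g.tooth_sees hr hi h1 h2 h

lemma Good.adj_step (g : Good n L m δ) {a b : ℕ} (ha : a ≤ top n L) (hb : b ≤ top n L)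
    (hab : b = a + 1 ∨ a = b + 1) : (Gr n L m δ r).Adj (g.up a) (g.up b) := by
  refine ⟨?_, ?_⟩
  · intro h
    have := g.up_inj ha hb h
    omega
  · rw [g.bv_up ha, g.bv_up hb]
    exact g.step ha hb hab

lemma Good.not_adj_between (g : Good n L m δ) {a b k : ℕ} (hak : a < k) (hkb : k < b)
    (hb : b ≤ top n L) (hk : ¬ IsTooth m k) : ¬ (Gr n L m δ r).Adj (g.up a) (g.up b) := by
  rintro ⟨-, h⟩
  rw [g.bv_up (by omega), g.bv_up hb] at h
  exact g.flat_block hak hkb hb hk h

lemma Good.not_adj_tooth (g : Good n L m δ) {a b : ℕ} (ha : IsTooth m a) (ha' : a ≤ top n L)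
    (hb : b ≤ top n L) (hab : a + 2 ≤ b ∨ b + 2 ≤ a) :
    ¬ (Gr n L m δ r).Adj (g.up a) (g.up b) := by
  rintro ⟨-, h⟩
  rw [g.bv_up ha', g.bv_up hb] at h
  exact g.tooth_block ha hb ha' hab h

/-- adjacent vertices of the upper chain are close -/
lemma Good.close (g : Good n L m δ) {a b : ℕ} (ha : a ≤ top n L) (hb : b ≤ top n L)
    (h : (Gr n L m δ r).Adj (g.up a) (g.up b)) : a ≤ b + 2 ∧ b ≤ a + 2 ∧ a ≠ b := by
  refine ⟨?_, ?_, ?_⟩
  · by_contra hcon
    have h' := h.symm
    by_cases h1 : IsTooth m (b + 1)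
    · exact g.not_adj_between (k := b + 2) (by omega) (by omega) ha (flat_pred h1).2 h'
    · exact g.not_adj_between (k := b + 1) (by omega) (by omega) ha h1 h'
  · by_contra hcon
    by_cases h1 : IsTooth m (a + 1)
    · exact g.not_adj_between (k := a + 2) (by omega) (by omega) hb (flat_pred h1).2 h
    · exact g.not_adj_between (k := a + 1) (by omega) (by omega) hb h1 h
  · rintro rfl
    exact h.1 rfl

lemma Good.deg_low (g : Good n L m δ) {v : Fin n} (hv : (v : ℕ) ≤ L) :
    L + 6 ≤ ((Gr n L m δ r).neighborSet v).ncard := by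
  have hgL := g.hL
  have htop : 2 * m + 5 ≤ top n L := by rcases g.top_cases with h | h <;> omega
  let F : Fin (L + 6) → Fin n := fun t =>
    if (t : ℕ) < v then g.lo t else if (t : ℕ) < L then g.lo (t + 1) else g.up (2 * m + (t - L))
  have hF : Function.Injective F := by
    intro s t hst
    have hs := s.2
    have ht := t.2
    have h1 := congrArg Fin.val hst
    have hnp := g.npos
    have htd : top n L = n - 2 - L := rfl
    simp only [F] at h1
    apply Fin.ext
    split_ifs at h1 with c1 c2 c3 c4 c5 c6 c7 c8 <;>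
      simp only [Good.lo, Good.up] at h1 <;> omega
  have hmem : ∀ t, F t ∈ (Gr n L m δ r).neighborSet v := by
    intro t
    have ht := t.2
    obtain ⟨x, hx, rfl⟩ := g.low_cases v hv
    change (Gr n L m δ r).Adj (g.lo x) (F t)
    simp only [F]
    rw [g.lo_val hx]
    split_ifs with c1 c2
    · exact g.adj_lo_lo hx (by omega) (by omega)
    · exact g.adj_lo_lo hx (by omega) (by omega)
    · apply g.adj_lo_flat hx (by omega)
      unfold IsTooth; omega
  have h1 : (Set.range F).ncard = L + 6 := by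
    rw [← Set.image_univ, Set.ncard_image_of_injective _ hF, Set.ncard_univ, Nat.card_eq_fintype_card,
      Fintype.card_fin]
  rw [← h1]
  apply Set.ncard_le_ncard _ (Set.toFinite _)
  rintro _ ⟨t, rfl⟩
  exact hmem t

lemma Good.deg_up (g : Good n L m δ) {v : Fin n} (hv : ¬ (v : ℕ) ≤ L) :
    ((Gr n L m δ r).neighborSet v).ncard ≤ L + 5 := by
  obtain ⟨x, hx, rfl⟩ := g.up_cases v hv
  have h1 : ((Gr n L m δ r).neighborSet (g.up x)).ncard =
      (Fin.val '' (Gr n L m δ r).neighborSet (g.up x)).ncard :=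
    (Set.ncard_image_of_injective _ Fin.val_injective).symm
  rw [h1]
  set T : Finset ℕ := Finset.range (L + 1) ∪ {n - 1 - x + 1, n - 1 - x + 2, n - 1 - x - 1,
    n - 1 - x - 2} with hT
  have h2 : Fin.val '' (Gr n L m δ r).neighborSet (g.up x) ⊆ (T : Set ℕ) := by
    rintro _ ⟨w, hw, rfl⟩
    by_cases hwL : (w : ℕ) ≤ L
    · simp only [hT, Finset.coe_union, Set.mem_union, Finset.mem_coe, Finset.mem_range]
      left; omega
    · obtain ⟨y, hy, rfl⟩ := g.up_cases w hwL
      have h3 := g.close hx hy hw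
      have h4 := g.top_lt hx
      have h5 := g.top_lt hy
      have h6 : ((g.up y : Fin n) : ℕ) = n - 1 - y := rfl
      simp only [hT, Finset.coe_union, Set.mem_union, Finset.mem_coe, Finset.mem_insert,
        Finset.mem_singleton]
      right
      rw [h6]
      omega
  calc (Fin.val '' (Gr n L m δ r).neighborSet (g.up x)).ncard
      ≤ (T : Set ℕ).ncard := Set.ncard_le_ncard h2 (Finset.finite_toSet T)
    _ = T.card := Set.ncard_coe_finset T
    _ ≤ (Finset.range (L + 1)).card + Finset.card {n - 1 - x + 1, n - 1 - x + 2, n - 1 - x - 1,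
        n - 1 - x - 2} := Finset.card_union_le _ _
    _ ≤ (L + 1) + 4 := by
        apply Nat.add_le_add
        · rw [Finset.card_range]
        · exact Finset.card_le_four
    _ = L + 5 := by ring

lemma cp_flat (m j : ℕ) : ¬ IsTooth m (cp m j) := by
  unfold cp IsTooth
  split_ifs <;> omega

lemma cp_surj {m x : ℕ} (h : ¬ IsTooth m x) : ∃ j, x = cp m j ∧ (2 * m ≤ x → j = x - m) := by
  unfold IsTooth at h
  unfold cp
  rcases Nat.lt_or_ge x (2 * m) with h1 | h1
  · refine ⟨x / 2, ?_, by omega⟩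
    rw [if_pos (by omega)]; omega
  · refine ⟨x - m, ?_, fun _ => rfl⟩
    split_ifs <;> omega

lemma cp_lt {m i j : ℕ} (h : i < j) : cp m i < cp m j := by
  unfold cp; split_ifs <;> omega

lemma cp_inj {m i j : ℕ} (h : cp m i = cp m j) : i = j := by
  rcases Nat.lt_trichotomy i j with h1 | h1 | h1
  · have := cp_lt (m := m) h1; omega
  · exact h1
  · have := cp_lt (m := m) h1; omega

/-- the largest index of a flat vertex -/
def lastJ (n L m : ℕ) : ℕ := top n L - m

lemma Good.cp_last (g : Good n L m δ) : cp m (lastJ n L m) = top n L := by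
  have := g.hL
  unfold cp lastJ
  rcases g.top_cases with h | h
  · rw [if_neg (by omega)]; omega
  · rw [if_neg (by omega)]; omega

lemma Good.cp_le (g : Good n L m δ) {j : ℕ} (hj : j ≤ lastJ n L m) : cp m j ≤ top n L := by
  rw [← g.cp_last]
  rcases eq_or_lt_of_le hj with h | h
  · rw [h]
  · exact (cp_lt h).le

lemma Good.le_of_cp (g : Good n L m δ) {j : ℕ} (hj : cp m j ≤ top n L) : j ≤ lastJ n L m := by
  by_contra hcon
  have := cp_lt (m := m) (Nat.lt_of_not_le hcon)
  rw [g.cp_last] at this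
  omega

lemma Good.adj_cp (g : Good n L m δ) (hr : ∀ i, i < m → r i ≤ m) {i j : ℕ}
    (hi : i ≤ lastJ n L m) (hj : j ≤ lastJ n L m) :
    (Gr n L m δ r).Adj (g.up (cp m i)) (g.up (cp m j)) ↔ (j = i + 1 ∨ i = j + 1) := by
  have key : ∀ i j : ℕ, i ≤ lastJ n L m → j ≤ lastJ n L m → i < j →
      ((Gr n L m δ r).Adj (g.up (cp m i)) (g.up (cp m j)) ↔ j = i + 1) := by
    intro i j hi hj hij
    constructor
    · intro h
      by_contra hcon
      exact g.not_adj_between (k := cp m (i + 1)) (cp_lt (by omega)) (cp_lt (by omega))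
        (g.cp_le hj) (cp_flat m (i + 1)) h
    · rintro rfl
      refine ⟨?_, ?_⟩
      · intro h
        have := cp_inj (g.up_inj (g.cp_le hi) (g.cp_le hj) h)
        omega
      · rw [g.bv_up (g.cp_le hi), g.bv_up (g.cp_le hj)]
        obtain ⟨s, hs, hs2⟩ : ∃ s, cp m (i + 1) = cp m i + s ∧
            (s = 1 ∨ (s = 2 ∧ IsTooth m (cp m i + 1))) := by
          unfold cp IsTooth
          rcases Nat.lt_trichotomy i m with h | h | h
          · refine ⟨2, ?_, ?_⟩
            · rw [if_pos (by omega), if_pos (by omega)]; ring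
            · right
              rw [if_pos (by omega)]; omega
          · refine ⟨1, ?_, Or.inl rfl⟩
            rw [if_neg (by omega), if_pos (by omega)]; omega
          · refine ⟨1, ?_, Or.inl rfl⟩
            rw [if_neg (by omega), if_neg (by omega)]; omega
        have h3 := g.cp_le hj
        have h4 := cp_flat m (i + 1)
        rw [hs] at h3 h4 ⊢
        exact g.flat_flat hr (cp_flat m i) s hs2 h3 h4
  rcases Nat.lt_trichotomy i j with h | h | h
  · rw [key i j hi hj h]; omega
  · subst h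
    constructor
    · intro h; exact absurd rfl h.1
    · omega
  · rw [SimpleGraph.adj_comm, key j i hj hi h]; omega

/-- **The depths of the teeth can be read off from the visibility graph.** -/
theorem Good.recover (g : Good n L m δ) {r r' : ℕ → ℕ} (hr : ∀ i, i < m → r i ≤ m)
    (hr' : ∀ i, i < m → r' i ≤ m) (hm : 1 ≤ m) (φ : Gr n L m δ r ≃g Gr n L m δ r') :
    ∀ i, i < m → r i = r' i := by
  have hgL := g.hL
  have htop : 2 * m + 5 ≤ top n L := by rcases g.top_cases with h | h <;> omega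
  -- the lower chain is recognised by the degrees
  have hlow : ∀ v : Fin n, (v : ℕ) ≤ L ↔ ((φ v : Fin n) : ℕ) ≤ L := by
    intro v
    have h1 := ncard_iso φ v
    constructor
    · intro h
      by_contra hcon
      have h2 := g.deg_low (r := r) h
      have h3 := g.deg_up (r := r') hcon
      omega
    · intro h
      by_contra hcon
      have h2 := g.deg_up (r := r) hcon
      have h3 := g.deg_low (r := r') h
      omega
  have hlow' : ∀ v : Fin n, ((φ.symm v : Fin n) : ℕ) ≤ L ↔ (v : ℕ) ≤ L := by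
    intro v
    rw [hlow (φ.symm v), φ.apply_symm_apply]
  -- flat vertices see the whole lower chain
  have hflat : ∀ ρ : ℕ → ℕ, (∀ i, i < m → ρ i ≤ m) → ∀ x, x ≤ top n L →
      (¬ IsTooth m x ↔ ∀ w : Fin n, (w : ℕ) ≤ L → (Gr n L m δ ρ).Adj (g.up x) w) := by
    intro ρ hρ x hx
    constructor
    · intro h w hw
      obtain ⟨y, hy, rfl⟩ := g.low_cases w hw
      exact (g.adj_lo_flat hy hx h).symm
    · intro h hT
      obtain ⟨i, hi⟩ : ∃ i, x = 2 * i + 1 := ⟨x / 2, by have := hT.1; omega⟩
      have him : i < m := by have := hT.2; omega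
      have h1 := h (g.lo L) (g.lo_low L)
      rw [hi, g.adj_tooth_lo hρ him le_rfl] at h1
      have := hρ i him
      omega
  have htooth : ∀ x, x ≤ top n L → ∃ y, y ≤ top n L ∧ φ (g.up x) = g.up y ∧
      (IsTooth m x ↔ IsTooth m y) := by
    intro x hx
    obtain ⟨y, hy, hxy⟩ := g.up_cases (φ (g.up x)) (by
      rw [← hlow]; exact g.up_not_low hx)
    refine ⟨y, hy, hxy, ?_⟩
    rw [← not_iff_not, hflat r hr x hx, hflat r' hr' y hy]
    constructor
    · intro h w hw
      have h1 := h (φ.symm w) ((hlow' w).mpr hw)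
      rw [← φ.map_adj_iff, φ.apply_symm_apply, hxy] at h1
      exact h1
    · intro h w hw
      rw [← φ.map_adj_iff, hxy]
      exact h _ ((hlow w).mp hw)
  -- the flat vertices are mapped to flat vertices
  have hcp : ∀ j, j ≤ lastJ n L m → ∃ k, k ≤ lastJ n L m ∧
      φ (g.up (cp m j)) = g.up (cp m k) := by
    intro j hj
    obtain ⟨y, hy, h1, h2⟩ := htooth _ (g.cp_le hj)
    have h3 : ¬ IsTooth m y := by rw [← h2]; exact cp_flat m j
    obtain ⟨k, hk, -⟩ := cp_surj h3
    subst hk
    exact ⟨k, g.le_of_cp hy, h1⟩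
  have hJ : m + 5 ≤ lastJ n L m := by unfold lastJ; omega
  -- the first flat vertex is fixed
  have hadj' : ∀ {i j k l : ℕ}, i ≤ lastJ n L m → j ≤ lastJ n L m → k ≤ lastJ n L m →
      l ≤ lastJ n L m → φ (g.up (cp m i)) = g.up (cp m k) → φ (g.up (cp m j)) = g.up (cp m l) →
      ((j = i + 1 ∨ i = j + 1) ↔ (l = k + 1 ∨ k = l + 1)) := by
    intro i j k l hi hj hk hl h1 h2
    rw [← g.adj_cp hr hi hj, ← g.adj_cp hr' hk hl, ← h1, ← h2, φ.map_adj_iff]
  have hinj' : ∀ {i j k : ℕ}, i ≤ lastJ n L m → j ≤ lastJ n L m →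
      φ (g.up (cp m i)) = g.up (cp m k) → φ (g.up (cp m j)) = g.up (cp m k) → i = j := by
    intro i j k hi hj h1 h2
    exact cp_inj (g.up_inj (g.cp_le hi) (g.cp_le hj) (φ.injective (h1.trans h2.symm)))
  -- surjectivity
  have hsurj : ∀ k, k ≤ lastJ n L m → ∃ j, j ≤ lastJ n L m ∧
      φ (g.up (cp m j)) = g.up (cp m k) := by
    intro k hk
    choose! f hf1 hf2 using hcp
    have hmaps : ∀ a ∈ Finset.range (lastJ n L m + 1), f a ∈ Finset.range (lastJ n L m + 1) := by
      intro a ha
      rw [Finset.mem_range] at ha ⊢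
      have := hf1 a (by omega)
      omega
    have hinjf : Set.InjOn f (Finset.range (lastJ n L m + 1)) := by
      intro a ha b hb hab
      rw [Finset.mem_coe, Finset.mem_range] at ha hb
      have h1 := hf2 a (by omega)
      have h2 := hf2 b (by omega)
      rw [← hab] at h2
      exact hinj' (by omega) (by omega) h1 h2
    have := Finset.surjOn_of_injOn_of_card_le f hmaps hinjf le_rfl
    obtain ⟨j, hj, hjk⟩ := this (by
      rw [Finset.mem_coe, Finset.mem_range]; omega : k ∈ (Finset.range (lastJ n L m + 1) : Set ℕ))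
    rw [Finset.mem_coe, Finset.mem_range] at hj
    exact ⟨j, by omega, by rw [← hjk]; exact hf2 j (by omega)⟩
  have hfirst : φ (g.up (cp m 0)) = g.up (cp m 0) := by
    obtain ⟨k, hk, h0⟩ := hcp 0 (by omega)
    by_cases hk0 : k = 0
    · rw [hk0] at h0; exact h0
    exfalso
    by_cases hkJ : k = lastJ n L m
    · -- the last flat vertex has no tooth as neighbour
      subst hkJ
      obtain ⟨y, hy, h1, h2⟩ := htooth 1 (by omega)
      have hT1 : IsTooth m 1 := ⟨by norm_num, by omega⟩
      have hTy := h2.mp hT1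
      have hc0 : cp m 0 = 0 := by unfold cp; simp
      have h3 : (Gr n L m δ r).Adj (g.up (cp m 0)) (g.up 1) := by
        rw [hc0]
        exact g.adj_step (by omega) (by omega) (Or.inl rfl)
      rw [← φ.map_adj_iff, h0, h1, g.cp_last] at h3
      have h4 := g.close le_rfl hy h3
      have := hTy.2
      omega
    · -- an inner flat vertex has two flat neighbours
      obtain ⟨i, hi, h1⟩ := hsurj (k - 1) (by omega)
      obtain ⟨j, hj, h2⟩ := hsurj (k + 1) (by omega)
      have e1 := (hadj' (by omega) hi hk (by omega) h0 h1).mpr (by omega)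
      have e2 := (hadj' (by omega) hj hk (by omega) h0 h2).mpr (by omega)
      have e3 : i = j := by omega
      subst e3
      have := cp_inj (g.up_inj (g.cp_le (by omega)) (g.cp_le (by omega)) (h1.symm.trans h2))
      omega
  have hfix : ∀ j, j ≤ lastJ n L m → φ (g.up (cp m j)) = g.up (cp m j) := by
    intro j
    induction j using Nat.strong_induction_on with
    | _ j ih =>
      intro hj
      rcases Nat.eq_zero_or_pos j with h | h
      · subst h; exact hfirst
      obtain ⟨k, hk, h0⟩ := hcp j hj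
      have e1 := ih (j - 1) (by omega) (by omega)
      have e2 := (hadj' (by omega) hj (by omega) hk e1 h0).mp (by omega)
      have e3 : k = j ∨ (2 ≤ j ∧ k = j - 2) := by omega
      rcases e3 with e3 | ⟨e3, e4⟩
      · rw [e3] at h0; exact h0
      · exfalso
        have e5 := ih (j - 2) (by omega) (by omega)
        rw [e4] at h0
        have := hinj' hj (by omega) h0 e5
        omega
  -- the teeth are fixed
  have hteeth : ∀ i, i < m → φ (g.up (2 * i + 1)) = g.up (2 * i + 1) := by
    intro i hi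
    obtain ⟨y, hy, h1, h2⟩ := htooth (2 * i + 1) (by omega)
    have hT : IsTooth m (2 * i + 1) := ⟨by omega, by omega⟩
    have hTy := h2.mp hT
    have c0 : cp m i = 2 * i := by unfold cp; rw [if_pos (by omega)]
    have c1 : cp m (i + 1) = 2 * i + 2 := by unfold cp; rw [if_pos (by omega)]; ring
    have f0 := hfix i (by omega)
    have f1 := hfix (i + 1) (by omega)
    rw [c0] at f0
    rw [c1] at f1
    have h3 : (Gr n L m δ r).Adj (g.up (2 * i + 1)) (g.up (2 * i)) :=
      g.adj_step (by omega) (by omega) (Or.inr rfl)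
    have h4 : (Gr n L m δ r).Adj (g.up (2 * i + 1)) (g.up (2 * i + 2)) :=
      g.adj_step (by omega) (by omega) (Or.inl rfl)
    rw [← φ.map_adj_iff, h1, f0] at h3
    rw [← φ.map_adj_iff, h1, f1] at h4
    have h5 : ¬ (y + 2 ≤ 2 * i ∨ 2 * i + 2 ≤ y) := fun hc =>
      g.not_adj_tooth hTy hy (by omega) hc h3
    have h6 : ¬ (y + 2 ≤ 2 * i + 2 ∨ 2 * i + 2 + 2 ≤ y) := fun hc =>
      g.not_adj_tooth hTy hy (by omega) hc h4
    have h7 := hTy.1
    have : y = 2 * i + 1 := by omega
    rw [this] at h1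
    exact h1
  -- compare the degrees
  have hmono : ∀ ρ ρ' : ℕ → ℕ, (∀ i, i < m → ρ i ≤ m) → (∀ i, i < m → ρ' i ≤ m) →
      ∀ i, i < m → ρ i < ρ' i → ((Gr n L m δ ρ).neighborSet (g.up (2 * i + 1))).ncard <
        ((Gr n L m δ ρ').neighborSet (g.up (2 * i + 1))).ncard := by
    intro ρ ρ' hρ hρ' i hi hlt
    apply Set.ncard_lt_ncard _ (Set.toFinite _)
    have hri := hρ' i hi
    rw [Set.ssubset_iff_of_subset]
    · refine ⟨g.lo (2 * i + 1 + (ρ i + 2)), ?_, ?_⟩
      · exact (g.adj_tooth_lo hρ' hi (by omega)).mpr ⟨by omega, by omega⟩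
      · intro h
        have := (g.adj_tooth_lo hρ hi (by omega)).mp h
        omega
    · intro w hw
      by_cases hwL : (w : ℕ) ≤ L
      · obtain ⟨y, hy, rfl⟩ := g.low_cases w hwL
        have h1 := (g.adj_tooth_lo hρ hi hy).mp hw
        exact (g.adj_tooth_lo hρ' hi hy).mpr ⟨by omega, by omega⟩
      · obtain ⟨y, hy, rfl⟩ := g.up_cases w hwL
        have hT : IsTooth m (2 * i + 1) := ⟨by omega, by omega⟩
        have h1 : ¬ (2 * i + 1 + 2 ≤ y ∨ y + 2 ≤ 2 * i + 1) := fun hc =>
          g.not_adj_tooth hT (by omega) hy hc hw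
        have h2 := g.close (by omega) hy hw
        exact g.adj_step (by omega) hy (by omega)
  intro i hi
  have hdeg := ncard_iso φ (g.up (2 * i + 1))
  rw [hteeth i hi] at hdeg
  rcases Nat.lt_trichotomy (r i) (r' i) with h | h | h
  · have := hmono r r' hr hr' i hi h
    omega
  · exact h
  · have := hmono r' r hr' hr i hi h
    omega

end

end Pool.Agent.Y402.VG
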